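import Pool.Agent.W510.Cub.Coord

/-!
First constructions of curves: the tangent section, rational lines, and the case of two conjugate
lines through the point.
-/

namespace Pool.Agent.W510.Cub

open Polynomial

variable {k : Type*} [Field k]

/-- The quadratic form of the tangent cone along `a1 + t a2`. -/
noncomputable def mP (a : Cf k) : k[X] := C a.p1 + C a.p12 * X + C a.p2 * X ^ 2

/-- The cubic form along `a1 + t a2`. -/
noncomputable def FP (a : Cf k) : k[X] := C a.f1 + C a.e1 * X + C a.e2 * X ^ 2 + C a.f2 * X ^ 3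

theorem mP_ne_zero (a : Cf k) (h : a.p2 ≠ 0) : mP a ≠ 0 := by
  intro h0
  apply h
  have := congrArg (fun p => coeff p 2) h0
  simpa [mP, coeff_X, coeff_C] using this

/-- Construction one: the tangent section itself. -/
theorem cgood_one (a : Cf k) (h2 : a.p2 ≠ 0) (t : AlgebraicClosure k)
    (hm : aeval t (mP a) = 0) (hF : aeval t (FP a) ≠ 0) : CGood a := by
  refine ⟨![FP a, -mP a, -(mP a * X), 0], ?_, ⟨t, ?_, ?_, ?_, ?_⟩, ?_⟩
  · simp only [G, Cf.map, Matrix.cons_val_zero, Matrix.cons_val_one, Matrix.cons_val]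
    simp only [FP, mP]
    ring
  · simpa using hF
  · simp [hm]
  · simp [hm]
  · simp
  · left
    simpa using mP_ne_zero a h2

/-- Construction two: a rational line through the point. -/
theorem cgood_two (a : Cf k) (d1 d2 : k) (hd : d1 ≠ 0 ∨ d2 ≠ 0)
    (hq : a.p1 * d1 ^ 2 + a.p12 * d1 * d2 + a.p2 * d2 ^ 2 = 0)
    (hF : a.f1 * d1 ^ 3 + a.e1 * d1 ^ 2 * d2 + a.e2 * d1 * d2 ^ 2 + a.f2 * d2 ^ 3 = 0) :
    CGood a := by
  refine ⟨![1, C d1 * X, C d2 * X, 0], ?_, ⟨0, ?_, ?_, ?_, ?_⟩, ?_⟩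
  · simp only [G, Cf.map, Matrix.cons_val_zero, Matrix.cons_val_one, Matrix.cons_val]
    have h1 : C a.p1 * C d1 ^ 2 + C a.p12 * C d1 * C d2 + C a.p2 * C d2 ^ 2 = 0 := by
      rw [← C_0, ← hq]; simp
    have h2 : C a.f1 * C d1 ^ 3 + C a.e1 * C d1 ^ 2 * C d2 + C a.e2 * C d1 * C d2 ^ 2
        + C a.f2 * C d2 ^ 3 = 0 := by
      rw [← C_0, ← hF]; simp
    linear_combination X ^ 2 * h1 + X ^ 3 * h2
  · simp
  · simp
  · simp
  · simp
  · rcases hd with h | h
    · left; simpa using h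
    · right; left; simpa using h

end Pool.Agent.W510.Cub
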