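import Pool.Agent.W510.Cub.CaseA

/-!
The case of two conjugate lines through the point, the cubic form vanishing on the plane spanned
by `a1, a2`.
-/

namespace Pool.Agent.W510.Cub

open Polynomial

section ring

variable {R : Type*} [CommRing R]

/-- Kappa. -/
def kap (a : Cf R) (P1 P2 : R) : R := a.r1 * P1 ^ 2 + a.r2 * P2 ^ 2 + a.r12 * P1 * P2

/-- `E`. -/
def Ee (a : Cf R) (K m : R) : R :=
  -a.p1 * K ^ 2 + a.p2 * K + a.c * a.p1 ^ 2 * m ^ 2 * K - a.n * a.p1 ^ 3 * m ^ 4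
    - a.l2 * K * m * a.p1 - a.r2 * a.p1 * m ^ 2 + a.s2 * a.p1 ^ 2 * m ^ 3

/-- `H`. -/
def Hh (a : Cf R) (P1 P2 K m : R) : R :=
  P1 * (a.p12 * K - a.l1 * K * a.p1 * m - a.r12 * a.p1 * m ^ 2 + a.s1 * a.p1 ^ 2 * m ^ 3)
  + P2 * (2 * a.p2 * K - a.l2 * K * a.p1 * m - 2 * a.r2 * a.p1 * m ^ 2
    + a.s2 * a.p1 ^ 2 * m ^ 3)

/-- The curve. -/
def crvB (a : Cf R) (P1 P2 K m : R) : Fin 4 → R := fun i =>
  (m * Ee a K m) * (![0, P1, P2, 0] : Fin 4 → R) i
    + (-Hh a P1 P2 K m) * (![K, 0, m, -a.p1 * m ^ 2] : Fin 4 → R) i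

theorem G_crvB (a : Cf R) (P1 P2 m : R) (hf1 : a.f1 = 0) (he1 : a.e1 = 0) (he2 : a.e2 = 0)
    (hf2 : a.f2 = 0)
    (hq : a.p1 * P1 ^ 2 + a.p2 * P2 ^ 2 + a.p12 * P1 * P2 = a.p1 * m ^ 2) :
    G a (crvB a P1 P2 (kap a P1 P2) m) = 0 := by
  unfold crvB
  rw [G_comb]
  have h1 : G a ![0, P1, P2, 0] = 0 := by
    simp [G, hf1, he1, he2, hf2]
  have h2 : DG a ![0, P1, P2, 0] ![kap a P1 P2, 0, m, -a.p1 * m ^ 2] = 0 := by
    simp only [DG, Matrix.cons_val_zero, Matrix.cons_val_one, Matrix.cons_val, he1, he2, hf2,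
      kap]
    linear_combination (a.r1 * P1 ^ 2 + a.r2 * P2 ^ 2 + a.r12 * P1 * P2) * hq
  have h3 : DG a ![kap a P1 P2, 0, m, -a.p1 * m ^ 2] ![0, P1, P2, 0]
      = m * Hh a P1 P2 (kap a P1 P2) m := by
    simp only [DG, Matrix.cons_val_zero, Matrix.cons_val_one, Matrix.cons_val, he1, he2, hf2,
      hf1, Hh]
    ring
  have h4 : G a ![kap a P1 P2, 0, m, -a.p1 * m ^ 2] = m ^ 2 * Ee a (kap a P1 P2) m := by
    simp only [G, Matrix.cons_val_zero, Matrix.cons_val_one, Matrix.cons_val, he1, he2, hf2,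
      hf1, Ee]
    ring
  rw [h1, h2, h3, h4]
  ring

end ring

variable {k : Type*} [Field k]

/-- Construction three. -/
theorem cgood_three (a : Cf k) (hf1 : a.f1 = 0) (he1 : a.e1 = 0) (he2 : a.e2 = 0)
    (hf2 : a.f2 = 0) (hp1 : a.p1 ≠ 0) (hp2 : a.p2 ≠ 0) (t : AlgebraicClosure k)
    (hm : aeval t (mP a) = 0)
    (hder : algebraMap k _ a.p12 + 2 * algebraMap k _ a.p2 * t ≠ 0)
    (hR : algebraMap k _ a.r1 + algebraMap k _ a.r12 * t + algebraMap k _ a.r2 * t ^ 2 ≠ 0) :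
    CGood a := by
  set P1 : k[X] := C a.p1 - C a.p2 * X ^ 2 with hP1
  set P2 : k[X] := 2 * C a.p1 * X + C a.p12 * X ^ 2 with hP2
  have hq : (a.map C).p1 * P1 ^ 2 + (a.map C).p2 * P2 ^ 2 + (a.map C).p12 * P1 * P2
      = (a.map C).p1 * (mP a) ^ 2 := by
    simp only [Cf.map, hP1, hP2, mP]
    ring
  have hG := G_crvB (a.map C) P1 P2 (mP a) (by simp [hf1]) (by simp [he1]) (by simp [he2])
    (by simp [hf2]) hq
  set A : AlgebraicClosure k := algebraMap k _ a.p1 with hA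
  set B : AlgebraicClosure k := algebraMap k _ a.p12 with hB
  set Cc : AlgebraicClosure k := algebraMap k _ a.p2 with hC
  have hm' : A + B * t + Cc * t ^ 2 = 0 := by
    simpa [mP] using hm
  have hA0 : A ≠ 0 := by
    rw [hA]; simpa using hp1
  have ht0 : t ≠ 0 := by
    rintro rfl
    apply hA0
    simpa using hm'
  -- values at t
  have eP1 : aeval t P1 = A - Cc * t ^ 2 := by simp [hP1, hA, hC]
  have eP2 : aeval t P2 = 2 * A * t + B * t ^ 2 := by
    simp only [hP2, map_add, map_mul, map_pow, map_ofNat, aeval_C, aeval_X, hA, hB]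
  have eP1' : aeval t P1 = 2 * A + B * t := by rw [eP1]; linear_combination -hm'
  have eP2' : aeval t P2 = (2 * A + B * t) * t := by rw [eP2]; ring
  have h2A : 2 * A + B * t ≠ 0 := by
    have : 2 * A + B * t = -t * (B + 2 * Cc * t) := by linear_combination 2 * hm'
    rw [this]
    exact mul_ne_zero (neg_ne_zero.mpr ht0) hder
  have ekap : aeval t (kap (a.map C) P1 P2)
      = (2 * A + B * t) ^ 2 * (algebraMap k _ a.r1 + algebraMap k _ a.r12 * t
        + algebraMap k _ a.r2 * t ^ 2) := by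
    simp only [kap, Cf.map, map_add, map_mul, map_pow, aeval_C, eP1', eP2']
    ring
  have hkap : aeval t (kap (a.map C) P1 P2) ≠ 0 := by
    rw [ekap]
    exact mul_ne_zero (pow_ne_zero _ h2A) hR
  have eH : aeval t (Hh (a.map C) P1 P2 (kap (a.map C) P1 P2) (mP a))
      = aeval t (kap (a.map C) P1 P2) * ((2 * A + B * t) * (B + 2 * Cc * t)) := by
    simp only [Hh, Cf.map, map_add, map_mul, map_pow, map_sub, aeval_C, eP1', eP2', hm,
      map_ofNat]
    ring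
  have hH : aeval t (Hh (a.map C) P1 P2 (kap (a.map C) P1 P2) (mP a)) ≠ 0 := by
    rw [eH]
    exact mul_ne_zero hkap (mul_ne_zero h2A hder)
  refine ⟨crvB (a.map C) P1 P2 (kap (a.map C) P1 P2) (mP a), hG, ⟨t, ?_, ?_, ?_, ?_⟩, ?_⟩
  · simp only [crvB, map_add, map_mul, hm, Matrix.cons_val_zero, map_neg]
    simpa using ⟨hH, hkap⟩
  · simp [crvB, hm]
  · simp [crvB, hm]
  · simp [crvB, hm]
  · right; right
    intro h0
    have h1 : Hh (a.map C) P1 P2 (kap (a.map C) P1 P2) (mP a) * (C a.p1 * (mP a) ^ 2) = 0 := by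
      have : crvB (a.map C) P1 P2 (kap (a.map C) P1 P2) (mP a) 3
        = Hh (a.map C) P1 P2 (kap (a.map C) P1 P2) (mP a) * (C a.p1 * (mP a) ^ 2) := by
        simp only [crvB, Matrix.cons_val, Cf.map]
        ring
      rw [← this, h0]
    rcases mul_eq_zero.mp h1 with h | h
    · exact hH (by rw [h]; simp)
    · rcases mul_eq_zero.mp h with h | h
      · exact hp1 (by simpa using h)
      · exact mP_ne_zero a hp2 (by simpa using h)

end Pool.Agent.W510.Cub
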