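import Pool.Agent.W510.Cub.CaseA

/-!
The case of an Eckardt type point `x` and a rational point `z` with tangent plane through `x`.
-/

namespace Pool.Agent.W510.Cub

open Polynomial

variable {k : Type*} [Field k]

/-- Construction four. -/
theorem cgood_four (a : Cf k) (hp1 : a.p1 = 0) (hp2 : a.p2 = 0) (hp12 : a.p12 = 0)
    (hc : a.c = 0) (hn : a.n = 0) : CGood a := by
  obtain ⟨b1, b2, hb, hbs⟩ : ∃ b1 b2 : k, (b1 ≠ 0 ∨ b2 ≠ 0) ∧ a.s1 * b1 + a.s2 * b2 = 0 := by
    by_cases h1 : a.s1 = 0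
    · exact ⟨1, 0, Or.inl one_ne_zero, by simp [h1]⟩
    · exact ⟨a.s2, -a.s1, Or.inr (neg_ne_zero.mpr h1), by ring⟩
  set z : Fin 4 → k[X] := ![0, 0, 0, 1] with hz
  set d : Fin 4 → k[X] := ![1, C b1 * X, C b2 * X, 0] with hd
  have h1 : G (a.map C) z = 0 := by
    simp [G, hz, hn]
  have h2 : DG (a.map C) z d = 0 := by
    simp only [DG, hz, hd, Cf.map, hn, hc, Matrix.cons_val_zero, Matrix.cons_val_one,
      Matrix.cons_val]
    have : C a.s1 * C b1 + C a.s2 * C b2 = 0 := by
      rw [← C_0, ← hbs]; simp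
    simp only [map_zero]
    linear_combination X * this
  have hD : DG (a.map C) d z = 1 + C a.l1 * (C b1 * X) + C a.l2 * (C b2 * X)
      + C a.r1 * (C b1 * X) ^ 2 + C a.r2 * (C b2 * X) ^ 2 + C a.r12 * (C b1 * X) * (C b2 * X) := by
    simp only [DG, hz, hd, Cf.map, Matrix.cons_val_zero, Matrix.cons_val_one,
      Matrix.cons_val]
    ring
  have hD0 : aeval (0 : AlgebraicClosure k) (DG (a.map C) d z) = 1 := by
    rw [hD]; simp
  have hDne : DG (a.map C) d z ≠ 0 := by
    intro h
    rw [h] at hD0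
    simp at hD0
  have hG0 : aeval (0 : AlgebraicClosure k) (G (a.map C) d) = 0 := by
    simp [G, hd, Cf.map, hp1, hp2, hp12]
  refine ⟨Tan (a.map C) z d, G_Tan _ _ _ h1 h2, ⟨0, ?_, ?_, ?_, ?_⟩, ?_⟩
  · simp only [Tan, map_add, map_mul, hG0, map_neg, hD0]
    simp [hd]
  · simp only [Tan, map_add, map_mul, hG0, map_neg, hD0]
    simp [hd]
  · simp only [Tan, map_add, map_mul, hG0, map_neg, hD0]
    simp [hd]
  · simp only [Tan, map_add, map_mul, hG0, map_neg, hD0]
    simp [hd]
  · rcases hb with hb | hb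
    · left
      have e : Tan (a.map C) z d 1 = -(DG (a.map C) d z * (C b1 * X)) := by
        have e1 : z 1 = 0 := by simp [hz]
        have e2 : d 1 = C b1 * X := by simp [hd]
        unfold Tan
        rw [e1, e2]
        ring
      rw [e]
      exact neg_ne_zero.mpr (mul_ne_zero hDne (mul_ne_zero (by simpa using hb) X_ne_zero))
    · right; left
      have e : Tan (a.map C) z d 2 = -(DG (a.map C) d z * (C b2 * X)) := by
        have e1 : z 2 = 0 := by simp [hz]
        have e2 : d 2 = C b2 * X := by simp [hd]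
        unfold Tan
        rw [e1, e2]
        ring
      rw [e]
      exact neg_ne_zero.mpr (mul_ne_zero hDne (mul_ne_zero (by simpa using hb) X_ne_zero))

end Pool.Agent.W510.Cub
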