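import Pool.Agent.W510.Cub.CaseA

/-!
The case of an Eckardt type point `x` and a line through `x` meeting the surface in two further
distinct points `z, z'` (possibly conjugate).
-/

namespace Pool.Agent.W510.Cub

open Polynomial

section ring

variable {R S : Type*} [CommRing R] [CommRing S]

/-- The point `z`. -/
def zz (r : R) : Fin 4 → R := ![r, 0, 0, 1]

/-- The linear form `D(z, -)` at `(0,1,s,0)`. -/
def dz (a : Cf R) (r s : R) : R := r * (a.l1 + a.l2 * s) + (a.s1 + a.s2 * s)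

/-- The tangent direction at `z`. -/
def dd (a : Cf R) (r r' s : R) : Fin 4 → R := ![-dz a r s, r - r', (r - r') * s, 0]

/-- The residual point of the tangent line at `z`. -/
def ww (a : Cf R) (r r' s : R) : Fin 4 → R := Tan a (zz r) (dd a r r' s)

/-- The curve. -/
def gg (a : Cf R) (r r' m t : R) : Fin 4 → R := fun i =>
  (r - r') * Ch a (ww a r r' (t + r * m)) (ww a r' r (t + r' * m)) i

/-- The quadratic form `B` along `(0,1,s,0)`. -/
def Bq (a : Cf R) (s : R) : R :=
  (a.c ^ 2 - 4 * a.n) * (a.r1 + a.r12 * s + a.r2 * s ^ 2) + a.n * (a.l1 + a.l2 * s) ^ 2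
    - a.c * (a.l1 + a.l2 * s) * (a.s1 + a.s2 * s) + (a.s1 + a.s2 * s) ^ 2

/-- The cubic form along `(0,1,s,0)`. -/
def Cv (a : Cf R) (s : R) : R := a.f1 + a.e1 * s + a.e2 * s ^ 2 + a.f2 * s ^ 3

theorem map_Tan (φ : R →+* S) (a : Cf R) (u v : Fin 4 → R) (i : Fin 4) :
    φ (Tan a u v i) = Tan (a.map φ) (fun i => φ (u i)) (fun i => φ (v i)) i := by
  simp only [Tan, map_add, map_mul, map_neg, G_map, DG_map]

theorem map_Ch (φ : R →+* S) (a : Cf R) (u v : Fin 4 → R) (i : Fin 4) :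
    φ (Ch a u v i) = Ch (a.map φ) (fun i => φ (u i)) (fun i => φ (v i)) i := by
  simp only [Ch, map_add, map_mul, map_neg, DG_map]

theorem map_zz (φ : R →+* S) (r : R) : (fun i => φ (zz r i)) = zz (φ r) := by
  funext i
  fin_cases i <;> simp [zz]

theorem map_dd (φ : R →+* S) (a : Cf R) (r r' s : R) :
    (fun i => φ (dd a r r' s i)) = dd (a.map φ) (φ r) (φ r') (φ s) := by
  funext i
  fin_cases i <;> simp [dd, dz, Cf.map]

theorem map_ww (φ : R →+* S) (a : Cf R) (r r' s : R) :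
    (fun i => φ (ww a r r' s i)) = ww (a.map φ) (φ r) (φ r') (φ s) := by
  funext i
  simp only [ww, map_Tan, map_zz, map_dd]

theorem map_gg (φ : R →+* S) (a : Cf R) (r r' m t : R) (i : Fin 4) :
    φ (gg a r r' m t i) = gg (a.map φ) (φ r) (φ r') (φ m) (φ t) i := by
  simp only [gg, map_mul, map_sub, map_Ch, map_ww, map_add]

theorem gg_swap (a : Cf R) (r r' m t : R) (i : Fin 4) : gg a r' r m t i = gg a r r' m t i := by
  simp only [gg, Ch]
  ring

variable (a : Cf R) (r r' s : R)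

theorem G_zz (hc : a.c = -(r + r')) (hn : a.n = r * r') : G a (zz r) = 0 := by
  simp only [G, zz, Matrix.cons_val_zero, Matrix.cons_val_one, Matrix.cons_val, hc, hn]
  ring

theorem DG_zz_dd (hc : a.c = -(r + r')) :
    DG a (zz r) (dd a r r' s) = 0 := by
  simp only [DG, zz, dd, dz, Matrix.cons_val_zero, Matrix.cons_val_one, Matrix.cons_val, hc]
  ring

theorem G_ww (hc : a.c = -(r + r')) (hn : a.n = r * r') : G a (ww a r r' s) = 0 :=
  G_Tan _ _ _ (G_zz a r r' hc hn) (DG_zz_dd a r r' s hc)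

theorem G_gg (hc : a.c = -(r + r')) (hn : a.n = r * r') (m t : R) :
    G a (gg a r r' m t) = 0 := by
  unfold gg
  rw [G_smul, G_Ch _ _ _ (G_ww a r r' _ hc hn)
    (G_ww a r' r _ (by rw [hc]; ring) (by rw [hn]; ring)), mul_zero]

theorem G_dd (hp1 : a.p1 = 0) (hp2 : a.p2 = 0) (hp12 : a.p12 = 0) :
    G a (dd a r r' s) = (r - r') ^ 3 * Cv a s := by
  simp only [G, dd, Matrix.cons_val_zero, Matrix.cons_val_one, Matrix.cons_val, hp1, hp2, hp12,
    Cv]
  ring

theorem DG_dd_zz (hp1 : a.p1 = 0) (hp2 : a.p2 = 0) (hp12 : a.p12 = 0)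
    (hc : a.c = -(r + r')) (hn : a.n = r * r') :
    DG a (dd a r r' s) (zz r) = Bq a s := by
  simp only [DG, dd, zz, dz, Matrix.cons_val_zero, Matrix.cons_val_one, Matrix.cons_val, hp1,
    hp2, hp12, Bq, hc, hn]
  ring

theorem ww_eq (hp1 : a.p1 = 0) (hp2 : a.p2 = 0) (hp12 : a.p12 = 0)
    (hc : a.c = -(r + r')) (hn : a.n = r * r') (i : Fin 4) :
    ww a r r' s i = (r - r') ^ 3 * Cv a s * zz r i - Bq a s * dd a r r' s i := by
  simp only [ww, Tan, G_dd a r r' s hp1 hp2 hp12, DG_dd_zz a r r' s hp1 hp2 hp12 hc hn]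
  ring

theorem DG_smul_smul (α β : R) (u v : Fin 4 → R) :
    DG a (fun i => α * u i) (fun i => β * v i) = α ^ 2 * β * DG a u v := by
  simp only [DG]
  ring

theorem DG_zz_zz (hc : a.c = -(r + r')) (hn : a.n = r * r') :
    DG a (zz r') (zz r) = -(r - r') ^ 2 := by
  simp only [DG, zz, Matrix.cons_val_zero, Matrix.cons_val_one, Matrix.cons_val, hc, hn]
  ring

end ring

end Pool.Agent.W510.Cub
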