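import Pool.Agent.W510.Cub.CaseD

/-!
Construction five: descent of the curve of `CaseD` to the base field.
-/

namespace Pool.Agent.W510.Cub

open Polynomial

section val

variable {R : Type*} [CommRing R] (a : Cf R) (r r' s : R)

/-- The value of the curve at a root of `B`. -/
theorem gg_val (hp1 : a.p1 = 0) (hp2 : a.p2 = 0) (hp12 : a.p12 = 0)
    (hc : a.c = -(r + r')) (hn : a.n = r * r') (hB : Bq a s = 0) (i : Fin 4) :
    gg a r r' 0 s i = -((r - r') ^ 3 * Cv a s) ^ 4 * (r - r') ^ 3 * (zz r i - zz r' i) := by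
  have hc' : a.c = -(r' + r) := by rw [hc]; ring
  have hn' : a.n = r' * r := by rw [hn]; ring
  have h1 : ww a r r' s = fun i => ((r - r') ^ 3 * Cv a s) * zz r i := by
    funext i
    rw [ww_eq a r r' s hp1 hp2 hp12 hc hn, hB]
    ring
  have h2 : ww a r' r s = fun i => (-((r - r') ^ 3 * Cv a s)) * zz r' i := by
    funext i
    rw [ww_eq a r' r s hp1 hp2 hp12 hc' hn', hB]
    ring
  simp only [gg, mul_zero, add_zero, Ch]
  rw [h1, h2, DG_smul_smul, DG_smul_smul, DG_zz_zz a r r' hc hn, DG_zz_zz a r' r hc' hn']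
  ring

theorem gg_lin (hp1 : a.p1 = 0) (hp2 : a.p2 = 0) (hp12 : a.p12 = 0)
    (hc : a.c = -(r + r')) (hn : a.n = r * r') (m t : R) :
    gg a r r' m t 2 - (t + r' * m) * gg a r r' m t 1
      = -(r - r') ^ 3 * m * Bq a (t + r * m)
        * DG a (ww a r' r (t + r' * m)) (ww a r r' (t + r * m)) := by
  have hc' : a.c = -(r' + r) := by rw [hc]; ring
  have hn' : a.n = r' * r := by rw [hn]; ring
  simp only [gg, Ch]
  generalize DG a (ww a r' r (t + r' * m)) (ww a r r' (t + r * m)) = D1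
  generalize DG a (ww a r r' (t + r * m)) (ww a r' r (t + r' * m)) = D2
  rw [ww_eq a r r' _ hp1 hp2 hp12 hc hn 2, ww_eq a r r' _ hp1 hp2 hp12 hc hn 1,
    ww_eq a r' r _ hp1 hp2 hp12 hc' hn' 2, ww_eq a r' r _ hp1 hp2 hp12 hc' hn' 1]
  simp only [zz, dd, Matrix.cons_val_one, Matrix.cons_val, mul_zero, zero_sub]
  ring

end val

variable {k : Type*} [Field k]

/-- `B` as a polynomial. -/
noncomputable def BP (a : Cf k) : k[X] := Bq (a.map C) X

/-- The cubic as a polynomial. -/
noncomputable def CP (a : Cf k) : k[X] := Cv (a.map C) X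

theorem map_Bq {R S : Type*} [CommRing R] [CommRing S] (φ : R →+* S) (a : Cf R) (s : R) :
    φ (Bq a s) = Bq (a.map φ) (φ s) := by
  simp only [Bq, map_add, map_mul, map_sub, map_pow, map_ofNat, Cf.map]

theorem map_Cv {R S : Type*} [CommRing R] [CommRing S] (φ : R →+* S) (a : Cf R) (s : R) :
    φ (Cv a s) = Cv (a.map φ) (φ s) := by
  simp only [Cv, map_add, map_mul, map_pow, Cf.map]

/-- The leading coefficient of `B`. -/
def Bl (a : Cf k) : k :=
  (a.c ^ 2 - 4 * a.n) * a.r2 + a.n * a.l2 ^ 2 - a.c * a.l2 * a.s2 + a.s2 ^ 2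

theorem BP_eq (a : Cf k) : BP a = C (Bl a) * X ^ 2
    + C ((a.c ^ 2 - 4 * a.n) * a.r12 + 2 * a.n * a.l1 * a.l2
      - a.c * (a.l1 * a.s2 + a.l2 * a.s1) + 2 * a.s1 * a.s2) * X
    + C ((a.c ^ 2 - 4 * a.n) * a.r1 + a.n * a.l1 ^ 2 - a.c * a.l1 * a.s1 + a.s1 ^ 2) := by
  simp only [BP, Bq, Bl, Cf.map, map_add, map_sub, map_mul, map_pow, map_ofNat]
  ring

theorem natDegree_BP (a : Cf k) (h : Bl a ≠ 0) : (BP a).natDegree = 2 := by
  rw [BP_eq]
  exact natDegree_quadratic h

theorem natDegree_BP' {K : Type*} [Field K] (a : Cf k) (h : Bl a ≠ 0) (ι : k →+* K) :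
    ((BP a).map ι).natDegree = 2 := by
  rw [natDegree_map_eq_of_injective ι.injective, natDegree_BP a h]

theorem map_map_C {R S : Type*} [CommRing R] [CommRing S] (φ : R →+* S) (a : Cf R) :
    (a.map C).map (mapRingHom φ) = (a.map φ).map C := by
  simp [Cf.map]

theorem map_map_eval {R : Type*} [CommRing R] (t : R) (b : Cf R) :
    (b.map C).map (evalRingHom t) = b := by
  simp [Cf.map]

theorem map_map_comp {R : Type*} [CommRing R] (p : R[X]) (b : Cf R) :
    (b.map C).map (compRingHom p) = b.map C := by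
  simp [Cf.map]

theorem map_BP {K : Type*} [Field K] (a : Cf k) (ι : k →+* K) :
    (BP a).map ι = Bq ((a.map ι).map C) X := by
  have h4 := map_Bq (mapRingHom ι) (a.map C) X
  rw [map_map_C] at h4
  rw [BP, ← coe_mapRingHom, h4]
  simp

theorem Bq_comp {K : Type*} [Field K] (b : Cf K) (p : K[X]) :
    Bq (b.map C) p = (Bq (b.map C) X).comp p := by
  have h2 := map_Bq (compRingHom p) (b.map C) X
  rw [map_map_comp] at h2
  rw [← coe_compRingHom_apply, h2]
  simp

theorem Bq_comp_ne {K : Type*} [Field K] (b : Cf K) (r : K) (m : K[X])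
    (hm : m = Bq (b.map C) X) (hdeg : m.natDegree = 2) :
    Bq (b.map C) (X + C r * m) ≠ 0 := by
  have hm0 : m ≠ 0 := by
    intro h
    rw [h] at hdeg
    simp at hdeg
  rw [Bq_comp, ← hm]
  intro h0
  rw [comp_eq_zero_iff] at h0
  rcases h0 with h0 | h0
  · exact hm0 h0
  · have h6 := h0.2
    by_cases hr0 : r = 0
    · rw [hr0] at h6
      simp only [map_zero, zero_mul, add_zero] at h6
      exact X_ne_C _ h6
    · have h7 : (X + C r * m).coeff 2 = r * m.coeff 2 := by
        simp [coeff_X]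
      rw [h6, coeff_C] at h7
      simp only [OfNat.ofNat_ne_zero, if_false] at h7
      have h8 : m.coeff 2 ≠ 0 := by
        rw [← hdeg]
        exact leadingCoeff_ne_zero.mpr hm0
      exact mul_ne_zero hr0 h8 h7.symm

theorem gg_eval {K : Type*} [Field K] (b : Cf K) (r r' t : K) (m : K[X])
    (hp1 : b.p1 = 0) (hp2 : b.p2 = 0) (hp12 : b.p12 = 0)
    (hc : b.c = -(r + r')) (hn : b.n = r * r') (hB : Bq b t = 0) (hm : eval t m = 0)
    (i : Fin 4) :
    eval t (gg (b.map C) (C r) (C r') m X i)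
      = -((r - r') ^ 3 * Cv b t) ^ 4 * (r - r') ^ 3 * (zz r i - zz r' i) := by
  have h1 := map_gg (evalRingHom t) (b.map C) (C r) (C r') m X i
  rw [map_map_eval] at h1
  simp only [coe_evalRingHom, eval_C, hm, eval_X] at h1
  rw [h1]
  exact gg_val b r r' t hp1 hp2 hp12 hc hn hB i

theorem DG_ww_ne {K : Type*} [Field K] (b : Cf K) (r r' t : K) (m : K[X])
    (hp1 : b.p1 = 0) (hp2 : b.p2 = 0) (hp12 : b.p12 = 0)
    (hc : b.c = -(r + r')) (hn : b.n = r * r') (hB : Bq b t = 0) (hm : eval t m = 0)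
    (hom : r - r' ≠ 0) (hC : Cv b t ≠ 0) :
    DG (b.map C) (ww (b.map C) (C r') (C r) (X + C r' * m))
      (ww (b.map C) (C r) (C r') (X + C r * m)) ≠ 0 := by
  intro h0
  have h2 := DG_map (evalRingHom t) (b.map C) (ww (b.map C) (C r') (C r) (X + C r' * m))
    (ww (b.map C) (C r) (C r') (X + C r * m))
  rw [h0, map_zero, map_ww, map_ww, map_map_eval] at h2
  simp only [coe_evalRingHom, eval_C, eval_add, eval_mul, hm, eval_X, mul_zero,
    add_zero] at h2
  have e1 : ww b r r' t = fun i => ((r - r') ^ 3 * Cv b t) * zz r i := by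
    funext i
    rw [ww_eq b r r' t hp1 hp2 hp12 hc hn, hB]
    ring
  have e2 : ww b r' r t = fun i => (-((r - r') ^ 3 * Cv b t)) * zz r' i := by
    funext i
    rw [ww_eq b r' r t hp1 hp2 hp12 (by rw [hc]; ring) (by rw [hn]; ring), hB]
    ring
  rw [e1, e2, DG_smul_smul, DG_zz_zz b r r' hc hn] at h2
  have hκ0 : (r - r') ^ 3 * Cv b t ≠ 0 := mul_ne_zero (pow_ne_zero _ hom) hC
  exact (mul_ne_zero (mul_ne_zero (pow_ne_zero _ (neg_ne_zero.mpr hκ0)) hκ0)
      (neg_ne_zero.mpr (pow_ne_zero _ hom))) h2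

attribute [local irreducible] DG G Bq ww gg Tan Ch Cv

theorem gg_ne1 {K : Type*} [Field K] (b : Cf K) (r r' : K) (m : K[X])
    (hp1 : b.p1 = 0) (hp2 : b.p2 = 0) (hp12 : b.p12 = 0)
    (hc : b.c = -(r + r')) (hn : b.n = r * r')
    (hcon : gg (b.map C) (C r) (C r') m X 1 = 0 ∧ gg (b.map C) (C r) (C r') m X 2 = 0) :
    -(C r - C r') ^ 3 * m * Bq (b.map C) (X + C r * m)
        * DG (b.map C) (ww (b.map C) (C r') (C r) (X + C r' * m))
          (ww (b.map C) (C r) (C r') (X + C r * m)) = 0 := by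
  have h1 := gg_lin (b.map C) (C r) (C r') (by simp [hp1]) (by simp [hp2]) (by simp [hp12])
    (by simp [hc]) (by simp [hn]) m X
  rw [hcon.1, hcon.2] at h1
  have h3 : (0 : K[X]) - (X + C r' * m) * 0 = 0 := by ring
  rw [h3] at h1
  exact h1.symm

theorem gg_ne {K : Type*} [Field K] (b : Cf K) (r r' t : K) (m : K[X])
    (hp1 : b.p1 = 0) (hp2 : b.p2 = 0) (hp12 : b.p12 = 0)
    (hc : b.c = -(r + r')) (hn : b.n = r * r') (hB : Bq b t = 0) (hm : eval t m = 0)
    (hom : r - r' ≠ 0) (hC : Cv b t ≠ 0) (hmB : m = Bq (b.map C) X) (hdeg : m.natDegree = 2) :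
    gg (b.map C) (C r) (C r') m X 1 ≠ 0 ∨ gg (b.map C) (C r) (C r') m X 2 ≠ 0 := by
  by_contra hcon
  push Not at hcon
  have h2 := gg_ne1 b r r' m hp1 hp2 hp12 hc hn hcon
  have hm0 : m ≠ 0 := by
    intro h
    rw [h] at hdeg
    simp at hdeg
  have hom' : (C r - C r' : K[X]) ≠ 0 := by
    rwa [← C_sub, Ne, C_eq_zero]
  rcases mul_eq_zero.mp h2 with h | h
  · rcases mul_eq_zero.mp h with h | h
    · rcases mul_eq_zero.mp h with h | h
      · exact neg_ne_zero.mpr (pow_ne_zero 3 hom') h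
      · exact hm0 h
    · exact Bq_comp_ne b r m hmB hdeg h
  · exact DG_ww_ne b r r' t m hp1 hp2 hp12 hc hn hB hm hom hC h

/-- A root of `B` is not a root of the (irreducible) cubic. -/
theorem Cv_ne_zero {K : Type*} [Field K] [Algebra k K] [Algebra.IsAlgebraic k K] (a : Cf k)
    (hB : Bl a ≠ 0)
    (hC : ∀ x y : k, a.f1 * x ^ 3 + a.e1 * x ^ 2 * y + a.e2 * x * y ^ 2 + a.f2 * y ^ 3 = 0 →
      x = 0 ∧ y = 0) (t : K) (ht : aeval t (BP a) = 0) :
    Cv (a.map (algebraMap k K)) t ≠ 0 := by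
  intro h0
  have hBPne : BP a ≠ 0 := by
    intro h
    have := natDegree_BP a hB
    rw [h] at this
    simp at this
  have hf2 : a.f2 ≠ 0 := by
    intro h
    have := (hC 0 1 (by simp [h])).2
    exact one_ne_zero this
  have hCPeq : CP a = C a.f2 * X ^ 3 + C a.e2 * X ^ 2 + C a.e1 * X + C a.f1 := by
    simp only [CP, Cv, Cf.map]; ring
  have hCPdeg : (CP a).natDegree = 3 := by
    rw [hCPeq]; exact natDegree_cubic hf2
  have hCPne : CP a ≠ 0 := by
    intro h; rw [h] at hCPdeg; simp at hCPdeg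
  have hirr : Irreducible (CP a) := by
    rw [irreducible_iff_roots_eq_zero_of_degree_le_three (by rw [hCPdeg]; norm_num)
      (by rw [hCPdeg])]
    rw [Multiset.eq_zero_iff_forall_notMem]
    intro x hx
    rw [mem_roots hCPne, IsRoot.def, hCPeq] at hx
    have h1 : a.f1 * (1 : k) ^ 3 + a.e1 * 1 ^ 2 * x + a.e2 * 1 * x ^ 2 + a.f2 * x ^ 3 = 0 := by
      simp at hx
      linear_combination hx
    exact one_ne_zero (hC 1 x h1).1
  have hCt0 : aeval t (CP a) = 0 := by
    have h2 := map_Cv (aeval t : k[X] →ₐ[k] K).toRingHom (a.map C) X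
    have h3 : (a.map C).map (aeval t : k[X] →ₐ[k] K).toRingHom = a.map (algebraMap k K) := by
      simp [Cf.map]
    rw [h3] at h2
    have h4 : aeval t (CP a) = Cv (a.map (algebraMap k K)) t := by simpa [CP] using h2
    rw [h4, h0]
  have hd1 : CP a ∣ BP a := by
    have ha : Associated (minpoly k t) (CP a) := by
      have hdvd := minpoly.dvd k t hCt0
      have hi : IsIntegral k t := Algebra.IsIntegral.isIntegral t
      exact (minpoly.irreducible hi).associated_of_dvd hirr hdvd
    exact ha.symm.dvd.trans (minpoly.dvd k t ht)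
  have := natDegree_le_of_dvd hd1 hBPne
  rw [hCPdeg, natDegree_BP a hB] at this
  norm_num at this

theorem gg_lifts {K : Type*} [Field K] [Algebra k K] [IsGalois k K] (a : Cf k) (r r' : K)
    (hc : algebraMap k K a.c = -(r + r')) (hn : algebraMap k K a.n = r * r') (m : k[X])
    (i : Fin 4) :
    gg ((a.map (algebraMap k K)).map C) (C r) (C r') (m.map (algebraMap k K)) X i
      ∈ lifts (algebraMap k K) := by
  rw [lifts_iff_coeff_lifts]
  intro n
  rw [InfiniteGalois.mem_range_algebraMap_iff_fixed]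
  intro σ
  have h1 := map_gg (mapRingHom (σ : K →+* K)) ((a.map (algebraMap k K)).map C) (C r) (C r')
    (m.map (algebraMap k K)) X i
  have h2 : ((a.map (algebraMap k K)).map C).map (mapRingHom (σ : K →+* K))
      = (a.map (algebraMap k K)).map C := by
    simp [Cf.map]
  have h3 : (mapRingHom (σ : K →+* K)) (m.map (algebraMap k K)) = m.map (algebraMap k K) := by
    rw [coe_mapRingHom, Polynomial.map_map]
    congr 1
    ext x
    simp
  rw [h2, h3] at h1
  simp only [coe_mapRingHom, Polynomial.map_C, Polynomial.map_X] at h1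
  have hσr : σ r = r ∨ σ r = r' := by
    have h5 : (σ r - r) * (σ r - r') = 0 := by
      have hr : r ^ 2 + algebraMap k K a.c * r + algebraMap k K a.n = 0 := by
        rw [hc, hn]; ring
      have h6 := congrArg σ hr
      simp only [map_add, map_mul, map_pow, map_zero] at h6
      have h7 : σ (algebraMap k K a.c) = algebraMap k K a.c := σ.commutes a.c
      have h8 : σ (algebraMap k K a.n) = algebraMap k K a.n := σ.commutes a.n
      rw [h7, h8, hc, hn] at h6
      linear_combination h6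
    rcases mul_eq_zero.mp h5 with h | h
    · left; exact sub_eq_zero.mp h
    · right; exact sub_eq_zero.mp h
  have hr' : r' = -algebraMap k K a.c - r := by rw [hc]; ring
  have hσr' : σ r' = -algebraMap k K a.c - σ r := by
    rw [hr', map_sub, map_neg]
    congr 2
    exact σ.commutes a.c
  have h4 : (gg ((a.map (algebraMap k K)).map C) (C r) (C r') (m.map (algebraMap k K)) X i).map
      (σ : K →+* K)
      = gg ((a.map (algebraMap k K)).map C) (C r) (C r') (m.map (algebraMap k K)) X i := by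
    rw [h1]
    rcases hσr with h | h
    · have h9 : σ r' = r' := by rw [hσr', h, hr']
      have e1 : (σ : K →+* K) r = r := h
      have e2 : (σ : K →+* K) r' = r' := h9
      rw [e1, e2]
    · have h9 : σ r' = r := by rw [hσr', h, hr']; ring
      have e1 : (σ : K →+* K) r = r' := h
      have e2 : (σ : K →+* K) r' = r := h9
      rw [e1, e2, gg_swap]
  have h10 := congrArg (fun p => coeff p n) h4
  simpa [coeff_map] using h10

/-- Construction five. -/
theorem cgood_five [PerfectField k] (a : Cf k) (hp1 : a.p1 = 0) (hp2 : a.p2 = 0)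
    (hp12 : a.p12 = 0) (hdisc : a.c ^ 2 ≠ 4 * a.n) (hB : Bl a ≠ 0)
    (hC : ∀ x y : k, a.f1 * x ^ 3 + a.e1 * x ^ 2 * y + a.e2 * x * y ^ 2 + a.f2 * y ^ 3 = 0 →
      x = 0 ∧ y = 0) : CGood a := by
  let K := AlgebraicClosure k
  obtain ⟨r, hr⟩ : ∃ r : K, r ^ 2 + algebraMap k K a.c * r + algebraMap k K a.n = 0 := by
    have hdeg : (X ^ 2 + C a.c * X + C a.n : k[X]).degree ≠ 0 := by
      have : (X ^ 2 + C a.c * X + C a.n : k[X]) = C 1 * X ^ 2 + C a.c * X + C a.n := by simp
      rw [this, degree_quadratic one_ne_zero]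
      norm_num
    obtain ⟨r, hr⟩ := IsAlgClosed.exists_aeval_eq_zero K _ hdeg
    exact ⟨r, by simpa using hr⟩
  obtain ⟨r', hr'⟩ : ∃ r' : K, r' = -algebraMap k K a.c - r := ⟨_, rfl⟩
  have hc : algebraMap k K a.c = -(r + r') := by rw [hr']; ring
  have hn : algebraMap k K a.n = r * r' := by rw [hr']; linear_combination hr
  have hom : r - r' ≠ 0 := by
    intro h
    apply hdisc
    have h1 : algebraMap k K (a.c ^ 2 - 4 * a.n) = (r - r') ^ 2 := by
      rw [map_sub, map_mul, map_pow, hc, hn, map_ofNat]; ring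
    rw [h, zero_pow two_ne_zero, map_eq_zero_iff _ (algebraMap k K).injective] at h1
    exact sub_eq_zero.mp h1
  have hBPne : BP a ≠ 0 := by
    intro h
    have := natDegree_BP a hB
    rw [h] at this
    simp at this
  obtain ⟨t, ht⟩ : ∃ t : K, aeval t (BP a) = 0 := by
    apply IsAlgClosed.exists_aeval_eq_zero
    rw [degree_eq_natDegree hBPne, natDegree_BP a hB]
    norm_num
  have hmt : eval t ((BP a).map (algebraMap k K)) = 0 := by
    rw [eval_map, ← aeval_def, ht]
  have hBt : Bq (a.map (algebraMap k K)) t = 0 := by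
    have h1 := map_Bq (evalRingHom t) ((a.map (algebraMap k K)).map C) X
    rw [map_map_eval, ← map_BP, coe_evalRingHom, hmt] at h1
    simpa using h1.symm
  have hCt := Cv_ne_zero a hB hC t ht
  have hq1 : (a.map (algebraMap k K)).p1 = 0 := by simp [hp1]
  have hq2 : (a.map (algebraMap k K)).p2 = 0 := by simp [hp2]
  have hq12 : (a.map (algebraMap k K)).p12 = 0 := by simp [hp12]
  have hval := gg_eval (a.map (algebraMap k K)) r r' t ((BP a).map (algebraMap k K)) hq1 hq2 hq12
    hc hn hBt hmt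
  have hnv := gg_ne (a.map (algebraMap k K)) r r' t ((BP a).map (algebraMap k K)) hq1 hq2 hq12
    hc hn hBt hmt hom hCt (map_BP a _) (natDegree_BP' a hB _)
  have hG : G ((a.map (algebraMap k K)).map C) (gg ((a.map (algebraMap k K)).map C) (C r) (C r')
      ((BP a).map (algebraMap k K)) X) = 0 :=
    G_gg _ (C r) (C r') (by simp [hc]) (by simp [hn]) _ X
  have hdesc : ∀ i, ∃ p : k[X], p.map (algebraMap k K)
      = gg ((a.map (algebraMap k K)).map C) (C r) (C r') ((BP a).map (algebraMap k K)) X i := by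
    intro i
    have := gg_lifts a r r' hc hn (BP a) i
    rwa [mem_lifts] at this
  choose p hp using hdesc
  have haev : ∀ i, aeval t (p i) = -((r - r') ^ 3 * Cv (a.map (algebraMap k K)) t) ^ 4
      * (r - r') ^ 3 * (zz r i - zz r' i) := by
    intro i
    rw [← hval i, ← hp i, eval_map, aeval_def]
  have hmapne : ∀ i, gg ((a.map (algebraMap k K)).map C) (C r) (C r')
      ((BP a).map (algebraMap k K)) X i ≠ 0 → p i ≠ 0 := by
    intro i hi h0
    apply hi
    rw [← hp i, h0, Polynomial.map_zero]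
  refine ⟨p, ?_, ⟨t, ?_, ?_, ?_, ?_⟩, ?_⟩
  · have h1 := G_map (mapRingHom (algebraMap k K)) (a.map C) p
    rw [map_map_C] at h1
    have h3 : (fun i => mapRingHom (algebraMap k K) (p i))
        = gg ((a.map (algebraMap k K)).map C) (C r) (C r') ((BP a).map (algebraMap k K)) X := by
      funext i
      rw [coe_mapRingHom, hp i]
    rw [h3, hG] at h1
    have h4 : (G (a.map C) p).map (algebraMap k K) = 0 := h1.symm
    rwa [Polynomial.map_eq_zero] at h4
  · rw [haev]
    simp only [zz, Matrix.cons_val_zero]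
    exact mul_ne_zero (mul_ne_zero (neg_ne_zero.mpr (pow_ne_zero _
      (mul_ne_zero (pow_ne_zero _ hom) hCt))) (pow_ne_zero _ hom)) hom
  · rw [haev]
    simp [zz]
  · rw [haev]
    simp [zz]
  · rw [haev]
    simp [zz]
  · rcases hnv with h | h
    · exact Or.inl (hmapne 1 h)
    · exact Or.inr (Or.inl (hmapne 2 h))

end Pool.Agent.W510.Cub
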