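import Mathlib

/-!
Normalised cubic forms in four variables: the form `G` (with the point `(1,0,0,0)` on it, with
tangent plane `u 3 = 0` there), its polarisation `DG`, and basic identities.
-/

namespace Pool.Agent.W510.Cub

open Polynomial

/-- Coefficients of a cubic form in normalised position. -/
structure Cf (R : Type*) where
  p1 : R
  p2 : R
  p12 : R
  c : R
  n : R
  l1 : R
  l2 : R
  f1 : R
  e1 : R
  e2 : R
  f2 : R
  r1 : R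
  r2 : R
  r12 : R
  s1 : R
  s2 : R

/-- Transport of the coefficients along a map. -/
@[simps] def Cf.map {R S : Type*} (φ : R → S) (a : Cf R) : Cf S where
  p1 := φ a.p1
  p2 := φ a.p2
  p12 := φ a.p12
  c := φ a.c
  n := φ a.n
  l1 := φ a.l1
  l2 := φ a.l2
  f1 := φ a.f1
  e1 := φ a.e1
  e2 := φ a.e2
  f2 := φ a.f2
  r1 := φ a.r1
  r2 := φ a.r2
  r12 := φ a.r12
  s1 := φ a.s1
  s2 := φ a.s2

variable {R S : Type*} [CommRing R] [CommRing S]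

/-- The normalised cubic form. -/
def G (a : Cf R) (u : Fin 4 → R) : R :=
  u 0 ^ 2 * u 3 + a.p1 * u 1 ^ 2 * u 0 + a.p2 * u 2 ^ 2 * u 0 + a.p12 * u 0 * u 1 * u 2
  + a.c * u 3 ^ 2 * u 0 + a.n * u 3 ^ 3 + a.l1 * u 0 * u 1 * u 3 + a.l2 * u 0 * u 2 * u 3
  + a.f1 * u 1 ^ 3 + a.e1 * u 1 ^ 2 * u 2 + a.e2 * u 2 ^ 2 * u 1 + a.f2 * u 2 ^ 3
  + a.r1 * u 1 ^ 2 * u 3 + a.r2 * u 2 ^ 2 * u 3 + a.r12 * u 1 * u 2 * u 3
  + a.s1 * u 3 ^ 2 * u 1 + a.s2 * u 3 ^ 2 * u 2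

/-- The polarisation of `G`: quadratic in `u`, linear in `v`. -/
def DG (a : Cf R) (u v : Fin 4 → R) : R :=
  v 0 * (2 * u 0 * u 3 + a.p1 * u 1 ^ 2 + a.p2 * u 2 ^ 2 + a.p12 * u 1 * u 2
    + a.c * u 3 ^ 2 + a.l1 * u 1 * u 3 + a.l2 * u 2 * u 3)
  + v 1 * (2 * a.p1 * u 1 * u 0 + a.p12 * u 0 * u 2 + a.l1 * u 0 * u 3 + 3 * a.f1 * u 1 ^ 2
    + 2 * a.e1 * u 1 * u 2 + a.e2 * u 2 ^ 2 + 2 * a.r1 * u 1 * u 3 + a.r12 * u 2 * u 3
    + a.s1 * u 3 ^ 2)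
  + v 2 * (2 * a.p2 * u 2 * u 0 + a.p12 * u 0 * u 1 + a.l2 * u 0 * u 3 + a.e1 * u 1 ^ 2
    + 2 * a.e2 * u 2 * u 1 + 3 * a.f2 * u 2 ^ 2 + 2 * a.r2 * u 2 * u 3 + a.r12 * u 1 * u 3
    + a.s2 * u 3 ^ 2)
  + v 3 * (u 0 ^ 2 + 2 * a.c * u 3 * u 0 + 3 * a.n * u 3 ^ 2 + a.l1 * u 0 * u 1
    + a.l2 * u 0 * u 2 + a.r1 * u 1 ^ 2 + a.r2 * u 2 ^ 2 + a.r12 * u 1 * u 2
    + 2 * a.s1 * u 3 * u 1 + 2 * a.s2 * u 3 * u 2)

theorem G_map (φ : R →+* S) (a : Cf R) (u : Fin 4 → R) :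
    G (a.map φ) (fun i => φ (u i)) = φ (G a u) := by
  simp only [G, Cf.map, map_add, map_mul, map_pow]

theorem DG_map (φ : R →+* S) (a : Cf R) (u v : Fin 4 → R) :
    DG (a.map φ) (fun i => φ (u i)) (fun i => φ (v i)) = φ (DG a u v) := by
  simp only [DG, Cf.map, map_add, map_mul, map_pow, map_ofNat]

theorem G_comb (a : Cf R) (α β : R) (u v : Fin 4 → R) :
    G a (fun i => α * u i + β * v i)
      = α ^ 3 * G a u + α ^ 2 * β * DG a u v + α * β ^ 2 * DG a v u + β ^ 3 * G a v := by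
  simp only [G, DG]
  ring

theorem G_smul (a : Cf R) (α : R) (u : Fin 4 → R) :
    G a (fun i => α * u i) = α ^ 3 * G a u := by
  simp only [G]
  ring

/-- Residual point of the line through `z` in the tangent direction `d`. -/
def Tan (a : Cf R) (z d : Fin 4 → R) : Fin 4 → R := fun i => G a d * z i + (-DG a d z) * d i

theorem G_Tan (a : Cf R) (z d : Fin 4 → R) (h1 : G a z = 0) (h2 : DG a z d = 0) :
    G a (Tan a z d) = 0 := by
  unfold Tan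
  rw [G_comb, h1, h2]
  ring

/-- Residual point of the line through `u` and `v`. -/
def Ch (a : Cf R) (u v : Fin 4 → R) : Fin 4 → R := fun i => DG a v u * u i + (-DG a u v) * v i

theorem G_Ch (a : Cf R) (u v : Fin 4 → R) (h1 : G a u = 0) (h2 : G a v = 0) :
    G a (Ch a u v) = 0 := by
  unfold Ch
  rw [G_comb, h1, h2]
  ring

/-- There is a polynomial curve on `G = 0` through the point `(1,0,0,0)`. -/
def CGood {k : Type*} [Field k] (a : Cf k) : Prop :=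
  ∃ g : Fin 4 → k[X], G (a.map C) g = 0 ∧
    (∃ t : AlgebraicClosure k, aeval t (g 0) ≠ 0 ∧ aeval t (g 1) = 0 ∧ aeval t (g 2) = 0 ∧
      aeval t (g 3) = 0) ∧
    (g 1 ≠ 0 ∨ g 2 ≠ 0 ∨ g 3 ≠ 0)

end Pool.Agent.W510.Cub
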