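import Pool.Agent.W510.Cub.Frame

/-!
If the tangent cone at `x` is not zero then there is a curve through `x`.
-/

namespace Pool.Agent.W510.Cub

open Polynomial

variable {k : Type*} [Field k]

/-- Smoothness in terms of the polarisation. -/
def SmoothT (c : Ix → k) : Prop :=
  ∀ v : Fin 4 → AlgebraicClosure k, v ≠ 0 →
    TF (fun p => algebraMap k (AlgebraicClosure k) (c p)) v = 0 →
    ∃ w : Fin 4 → k, TD (fun p => algebraMap k (AlgebraicClosure k) (c p)) v
      (fun i => algebraMap k (AlgebraicClosure k) (w i)) ≠ 0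

theorem Frame.coords {c : Ix → k} {x a1 a2 y : Fin 4 → k} (h : Frame c x a1 a2 y)
    (w : Fin 4 → k) : ∃ u0 u1 u2 u3 : k, w = u0 • x + u1 • a1 + u2 • a2 + u3 • y := by
  have hli : LinearIndependent k ![x, a1, a2, y] := by
    rw [Fintype.linearIndependent_iff]
    intro g hg
    rw [Fin.sum_univ_four] at hg
    have := h.li (g 0) (g 1) (g 2) (g 3) (fun i => by
      have := congrFun hg i
      simpa using this)
    intro i
    fin_cases i
    · exact this.1
    · exact this.2.1
    · exact this.2.2.1
    · exact this.2.2.2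
  have hspan := hli.span_eq_top_of_card_eq_finrank (by simp)
  have hw : w ∈ Submodule.span k (Set.range ![x, a1, a2, y]) := by rw [hspan]; trivial
  rw [Submodule.mem_span_range_iff_exists_fun] at hw
  obtain ⟨u, hu⟩ := hw
  refine ⟨u 0, u 1, u 2, u 3, ?_⟩
  rw [← hu, Fin.sum_univ_four]
  simp

/-- Moving `a1, a2` along `x`. -/
theorem Frame.shear {c : Ix → k} {x a1 a2 y : Fin 4 → k} (h : Frame c x a1 a2 y) (s s' : k) :
    Frame c x (a1 + s • x) (a2 + s' • x) y where
  hx := h.hx
  h1 := by rw [TD_add_right, TD_smul_right, TD_self, h.hx, h.h1]; ring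
  h2 := by rw [TD_add_right, TD_smul_right, TD_self, h.hx, h.h2]; ring
  hy := h.hy
  li := by
    intro u0 u1 u2 u3 hu
    have := h.li (u0 + u1 * s + u2 * s') u1 u2 u3 (fun i => by
      have := hu i
      simp only [Pi.add_apply, Pi.smul_apply, smul_eq_mul] at this
      linear_combination this)
    obtain ⟨h0, h1, h2, h3⟩ := this
    rw [h1, h2] at h0
    exact ⟨by linear_combination h0, h1, h2, h3⟩

theorem cub_inj {A B D E A' B' D' E' : k}
    (h : C A + C B * X + C D * X ^ 2 + C E * X ^ 3
      = C A' + C B' * X + C D' * X ^ 2 + C E' * X ^ 3) : A = A' ∧ B = B' ∧ D = D' ∧ E = E' := by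
  have hcoef : ∀ n, (C A + C B * X + C D * X ^ 2 + C E * X ^ 3).coeff n
      = (C A' + C B' * X + C D' * X ^ 2 + C E' * X ^ 3).coeff n := by
    intro n; rw [h]
  exact ⟨by simpa [coeff_X, coeff_C] using hcoef 0, by simpa [coeff_X, coeff_C] using hcoef 1,
    by simpa [coeff_X, coeff_C] using hcoef 2, by simpa [coeff_X, coeff_C] using hcoef 3⟩

theorem good_of_q [PerfectField k] {c : Ix → k} (hsm : SmoothT c) {x a1 a2 y : Fin 4 → k}
    (h : Frame c x a1 a2 y) (hq : TD c a2 x ≠ 0) : Good c x := by
  classical
  have hp2 : (cfOf c x a1 a2 y).p2 ≠ 0 := hq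
  set a := cfOf c x a1 a2 y with ha
  have hmne := mP_ne_zero a hp2
  have hmdeg : (mP a).natDegree = 2 := by
    have : mP a = C a.p2 * X ^ 2 + C a.p12 * X + C a.p1 := by simp only [mP]; ring
    rw [this]
    exact natDegree_quadratic hp2
  by_cases hroot : ∃ r : k, a.p1 + a.p12 * r + a.p2 * r ^ 2 = 0
  · obtain ⟨r, hr⟩ := hroot
    by_cases hF : a.f1 + a.e1 * r + a.e2 * r ^ 2 + a.f2 * r ^ 3 = 0
    · refine h.good (cgood_two _ 1 r (Or.inl one_ne_zero) ?_ ?_)
      · rw [← ha]; linear_combination hr
      · rw [← ha]; linear_combination hF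
    · refine h.good (cgood_one _ hp2 (algebraMap k _ r) ?_ ?_)
      · rw [← ha, aeval_algebraMap_apply]
        have : aeval r (mP a) = 0 := by
          simp only [mP, map_add, map_mul, map_pow, aeval_C, aeval_X, Algebra.algebraMap_self,
            RingHom.id_apply]
          exact hr
        rw [this, map_zero]
      · rw [← ha, aeval_algebraMap_apply, Ne, map_eq_zero_iff _ (algebraMap k _).injective]
        simp only [FP, map_add, map_mul, map_pow, aeval_C, aeval_X, Algebra.algebraMap_self,
            RingHom.id_apply]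
        exact hF
  · push Not at hroot
    obtain ⟨t, ht⟩ : ∃ t : AlgebraicClosure k, aeval t (mP a) = 0 := by
      apply IsAlgClosed.exists_aeval_eq_zero
      rw [degree_eq_natDegree hmne, hmdeg]
      norm_num
    by_cases hF : aeval t (FP a) = 0
    swap
    · exact h.good (cgood_one _ hp2 t ht hF)
    have hirr : Irreducible (mP a) := by
      rw [irreducible_iff_roots_eq_zero_of_degree_le_three (by rw [hmdeg])
        (by rw [hmdeg]; norm_num)]
      rw [Multiset.eq_zero_iff_forall_notMem]
      intro r hr
      rw [mem_roots hmne, IsRoot.def] at hr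
      apply hroot r
      simpa [mP] using hr
    have hdvd : mP a ∣ FP a := by
      have hi : IsIntegral k t := Algebra.IsIntegral.isIntegral t
      have hass : Associated (minpoly k t) (mP a) :=
        (minpoly.irreducible hi).associated_of_dvd hirr (minpoly.dvd k t ht)
      exact hass.symm.dvd.trans (minpoly.dvd k t hF)
    obtain ⟨Q, hQ⟩ := hdvd
    have hQdeg : Q.natDegree ≤ 1 := by
      by_cases hQ0 : Q = 0
      · rw [hQ0]; simp
      · have h1 : (FP a).natDegree ≤ 3 := by
          have : FP a = C a.f2 * X ^ 3 + C a.e2 * X ^ 2 + C a.e1 * X + C a.f1 := by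
            simp only [FP]; ring
          rw [this]
          exact natDegree_cubic_le
        rw [hQ, natDegree_mul hmne hQ0, hmdeg] at h1
        omega
    obtain ⟨s', s, hs⟩ := exists_eq_X_add_C_of_natDegree_le_one hQdeg
    have hexp : mP a * (C s' * X + C s) = C (a.p1 * s) + C (a.p1 * s' + a.p12 * s) * X
        + C (a.p12 * s' + a.p2 * s) * X ^ 2 + C (a.p2 * s') * X ^ 3 := by
      simp only [mP, map_add, map_mul]; ring
    rw [hs, hexp, FP] at hQ
    obtain ⟨c0, c1, c2, c3⟩ := cub_inj hQ
    -- the new frame
    have h' := h.shear (-s) (-s')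
    set b1 := a1 + (-s) • x with hb1
    set b2 := a2 + (-s') • x with hb2
    have hxx : TD c x x = 0 := by rw [TD_self, h.hx, mul_zero]
    have hTx : ∀ v, TT c v x x = 2 * TD c x v := by
      intro v
      rw [TT_comm12, TT_comm23, TT_self]
    have eD1 : ∀ v, TD c b1 v = TD c a1 v + s ^ 2 * TD c x v - s * TT c a1 x v := by
      intro v
      rw [hb1, TD_add_left, TD_smul_left, TT_smul2]; ring
    have eD2 : ∀ v, TD c b2 v = TD c a2 v + s' ^ 2 * TD c x v - s' * TT c a2 x v := by
      intro v
      rw [hb2, TD_add_left, TD_smul_left, TT_smul2]; ring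
    have e_p1 : TD c b1 x = a.p1 := by
      rw [eD1, hxx, hTx, h.h1, ha]; simp [cfOf]
    have e_p2 : TD c b2 x = a.p2 := by
      rw [eD2, hxx, hTx, h.h2, ha]; simp [cfOf]
    have e_p12 : TT c x b1 b2 = a.p12 := by
      rw [hb1, hb2, TT_add2, TT_smul2, TT_add3, TT_add3, TT_smul3, TT_smul3, TT_self, TT_self,
        hxx, h.h2, TT_comm23 c x a1 x, TT_self, h.h1, ha]
      simp [cfOf]
    have e_f1 : TF c b1 = 0 := by
      have : TF c b1 = a.f1 - s * a.p1 := by
        rw [hb1, TF_add, TD_smul_right, TD_smul_left, TF_smul, h.h1, h.hx, ha]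
        simp only [cfOf]; ring
      rw [this, c0]; ring
    have e_f2 : TF c b2 = 0 := by
      have : TF c b2 = a.f2 - s' * a.p2 := by
        rw [hb2, TF_add, TD_smul_right, TD_smul_left, TF_smul, h.h2, h.hx, ha]
        simp only [cfOf]; ring
      rw [this, c3]; ring
    have e_e1 : TD c b1 b2 = 0 := by
      have : TD c b1 b2 = a.e1 - s * a.p12 - s' * a.p1 := by
        rw [hb2, TD_add_right, TD_smul_right, e_p1, eD1, h.h2, TT_comm12 c a1 x a2, ha]
        simp only [cfOf]; ring
      rw [this, c1]; ring
    have e_e2 : TD c b2 b1 = 0 := by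
      have : TD c b2 b1 = a.e2 - s' * a.p12 - s * a.p2 := by
        rw [hb1, TD_add_right, TD_smul_right, e_p2, eD2, h.h1, TT_comm12 c a2 x a1,
          TT_comm23 c x a2 a1, ha]
        simp only [cfOf]; ring
      rw [this, c2]; ring
    have hp1 : a.p1 ≠ 0 := by
      intro h0
      apply hroot 0
      rw [h0]; ring
    -- the frame over the closure
    have hm' : algebraMap k (AlgebraicClosure k) a.p1 + algebraMap k _ a.p12 * t
        + algebraMap k _ a.p2 * t ^ 2 = 0 := by
      simpa [mP] using ht
    have hder : algebraMap k (AlgebraicClosure k) a.p12 + 2 * algebraMap k _ a.p2 * t ≠ 0 := by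
      have hsep : (mP a).Separable := PerfectField.separable_of_irreducible hirr
      intro h0
      have h1 : aeval t (derivative (mP a)) = 0 := by
        have : derivative (mP a) = C a.p12 + 2 * C a.p2 * X := by
          simp only [mP, derivative_add, derivative_C, derivative_X,
            derivative_X_pow, derivative_mul]
          simp
          rw [map_ofNat]
          ring
        rw [this]
        simp only [map_add, map_mul, map_ofNat, aeval_C, aeval_X]
        exact h0
      obtain ⟨u, v, huv⟩ := hsep
      have := congrArg (aeval t) huv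
      rw [map_add, map_mul, map_mul, ht, h1, mul_zero, mul_zero, add_zero, map_one] at this
      exact zero_ne_one this
    have hR : algebraMap k (AlgebraicClosure k) (TD c b1 y) + algebraMap k _ (TT c b1 b2 y) * t
        + algebraMap k _ (TD c b2 y) * t ^ 2 ≠ 0 := by
      intro h0
      set ι := algebraMap k (AlgebraicClosure k) with hι
      set P : Fin 4 → AlgebraicClosure k := (fun i => ι (b1 i)) + t • (fun i => ι (b2 i)) with hP
      have hPne : P ≠ 0 := by
        intro hP0
        -- linear independence
        have hl : ∃ i j, b1 i * b2 j - b1 j * b2 i ≠ 0 := by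
          by_contra hcon
          push Not at hcon
          have hb20 : ∃ j, b2 j ≠ 0 := by
            by_contra h2
            push Not at h2
            have := h'.li 0 0 1 0 (fun i => by rw [h2 i]; ring)
            exact one_ne_zero this.2.2.1
          obtain ⟨j, hj⟩ := hb20
          have := h'.li 0 (b2 j) (-b1 j) 0 (fun i => by linear_combination hcon i j)
          exact hj this.2.1
        obtain ⟨i, j, hij⟩ := hl
        apply hij
        have h1 : ι (b1 i) + t * ι (b2 i) = 0 := congrFun hP0 i
        have h2 : ι (b1 j) + t * ι (b2 j) = 0 := congrFun hP0 j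
        have h3 : ι (b1 i * b2 j - b1 j * b2 i) = 0 := by
          rw [map_sub, map_mul, map_mul]
          linear_combination ι (b2 j) * h1 - ι (b2 i) * h2
        exact (map_eq_zero_iff ι ι.injective).mp h3
      have hTF : TF (fun p => ι (c p)) P = 0 := by
        rw [hP, TF_add, TF_smul, TD_smul_right, TD_smul_left, TF_map, TF_map, TD_map, TD_map,
          e_f1, e_f2, e_e1, e_e2]
        simp
      have hD : ∀ v : Fin 4 → k, TD (fun p => ι (c p)) P (fun i => ι (v i))
          = ι (TD c b1 v) + t ^ 2 * ι (TD c b2 v) + t * ι (TT c b1 b2 v) := by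
        intro v
        rw [hP, TD_add_left, TD_smul_left, TT_smul2, TD_map, TD_map, TT_map]
      obtain ⟨w, hw⟩ := hsm P hPne hTF
      apply hw
      obtain ⟨u0, u1, u2, u3, hu⟩ := h'.coords w
      have hz : ∀ v, TD c b1 v = 0 → TD c b2 v = 0 → TT c b1 b2 v = 0 →
          TD (fun p => ι (c p)) P (fun i => ι (v i)) = 0 := by
        intro v h1 h2 h3
        rw [hD, h1, h2, h3]; simp
      have z0 : TD (fun p => ι (c p)) P (fun i => ι (x i)) = 0 := by
        rw [hD, e_p1, e_p2, TT_comm23, TT_comm12, e_p12]
        linear_combination hm'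
      have z1 : TD (fun p => ι (c p)) P (fun i => ι (b1 i)) = 0 :=
        hz b1 (by rw [TD_self, e_f1, mul_zero]) e_e2
          (by rw [TT_comm23, TT_self, e_e1, mul_zero])
      have z2 : TD (fun p => ι (c p)) P (fun i => ι (b2 i)) = 0 :=
        hz b2 e_e1 (by rw [TD_self, e_f2, mul_zero])
          (by rw [TT_comm12, TT_comm23, TT_self, e_e2, mul_zero])
      have z3 : TD (fun p => ι (c p)) P (fun i => ι (y i)) = 0 := by
        rw [hD]
        linear_combination h0
      have hw' : (fun i => ι (w i)) = ι u0 • (fun i => ι (x i)) + ι u1 • (fun i => ι (b1 i))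
          + ι u2 • (fun i => ι (b2 i)) + ι u3 • (fun i => ι (y i)) := by
        funext i
        rw [hu]
        simp
      rw [hw', TD_add_right, TD_add_right, TD_add_right, TD_smul_right, TD_smul_right,
        TD_smul_right, TD_smul_right, z0, z1, z2, z3]
      simp
    refine h'.good (cgood_three _ e_f1 e_e1 e_e2 e_f2 ?_ ?_ t ?_ ?_ ?_)
    · change TD c b1 x ≠ 0
      rw [e_p1]; exact hp1
    · change TD c b2 x ≠ 0
      rw [e_p2]; exact hp2
    · have : mP (cfOf c x b1 b2 y) = mP a := by
        simp only [mP, cfOf, e_p1, e_p2, e_p12]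
      rw [this]; exact ht
    · change algebraMap k _ (TT c x b1 b2) + 2 * algebraMap k _ (TD c b2 x) * t ≠ 0
      rw [e_p12, e_p2]; exact hder
    · exact hR

end Pool.Agent.W510.Cub
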