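import Pool.Agent.W510.Cub.FactA

/-!
Consequences of the absence of curves through `x`.
-/

namespace Pool.Agent.W510.Cub

open Polynomial

variable {k : Type*} [Field k]

theorem exists_a {c : Ix → k} {x y : Fin 4 → k} (hx0 : x ≠ 0) (hx : TF c x = 0)
    (hy : TD c x y = 1) : ∃ a, TD c x a = 0 ∧ Ind x a := by
  have hxx : TD c x x = 0 := by rw [TD_self, hx, mul_zero]
  have hli2 : LinearIndependent k ![x, y] := by
    rw [LinearIndependent.pair_iff]
    intro s t hst
    have h1 := congrArg (TD c x) hst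
    have h2 : TD c x 0 = 0 := by simp [TD]
    rw [TD_add_right, TD_smul_right, TD_smul_right, hxx, hy, h2, mul_zero, zero_add,
      mul_one] at h1
    rw [h1, zero_smul, add_zero, smul_eq_zero] at hst
    exact ⟨hst.resolve_right hx0, h1⟩
  obtain ⟨w, hw0⟩ := exists_linearIndependent_cons_of_lt_finrank hli2 (by simp)
  have hw : LinearIndependent k ![w, x, y] := hw0
  rw [Fintype.linearIndependent_iff] at hw
  refine ⟨w + (-TD c x w) • y, ?_, ?_⟩
  · rw [TD_add_right, TD_smul_right, hy]; ring
  · intro u v huv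
    have := hw ![v, u, -v * TD c x w] (by
      rw [Fin.sum_univ_three]
      funext i
      have := huv i
      simp at this ⊢
      linear_combination this)
    have e0 := this 0
    have e1 := this 1
    simp only [Matrix.cons_val_zero, Matrix.cons_val_one] at e0 e1
    exact ⟨e1, e0⟩

theorem Frame.ind {c : Ix → k} {x a1 a2 y : Fin 4 → k} (h : Frame c x a1 a2 y) (α β : k)
    (hαβ : α ≠ 0 ∨ β ≠ 0) : Ind x (α • a1 + β • a2) := by
  intro u v huv
  have := h.li u (v * α) (v * β) 0 (fun i => by
    have := huv i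
    simp only [Pi.add_apply, Pi.smul_apply, smul_eq_mul] at this
    linear_combination this)
  refine ⟨this.1, ?_⟩
  rcases hαβ with h1 | h1
  · exact (mul_eq_zero.mp this.2.1).resolve_right h1
  · exact (mul_eq_zero.mp this.2.2.1).resolve_right h1

theorem Frame.shearY {c : Ix → k} {x a1 a2 y : Fin 4 → k} (h : Frame c x a1 a2 y) (s : k) :
    Frame c x a1 a2 (y + s • x) where
  hx := h.hx
  h1 := h.h1
  h2 := h.h2
  hy := by rw [TD_add_right, TD_smul_right, TD_self, h.hx, h.hy]; ring
  li := by
    intro u0 u1 u2 u3 hu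
    have := h.li (u0 + u3 * s) u1 u2 u3 (fun i => by
      have := hu i
      simp only [Pi.add_apply, Pi.smul_apply, smul_eq_mul] at this
      linear_combination this)
    obtain ⟨h0, h1, h2, h3⟩ := this
    rw [h3] at h0
    exact ⟨by linear_combination h0, h1, h2, h3⟩

theorem factA [PerfectField k] {c : Ix → k} (hsm : SmoothT c) {x y : Fin 4 → k} (hx0 : x ≠ 0)
    (hx : TF c x = 0) (hy : TD c x y = 1) (hng : ¬ Good c x) (a : Fin 4 → k)
    (ha : TD c x a = 0) : TD c a x = 0 := by
  by_contra hq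
  by_cases hI : Ind x a
  · obtain ⟨a1, hf⟩ := exists_frame hx ha hI hy
    exact hng (good_of_q hsm hf hq)
  · apply hq
    unfold Ind at hI
    push Not at hI
    obtain ⟨u, v, huv, huv'⟩ := hI
    have hv : v ≠ 0 := by
      rintro rfl
      by_cases hu : u = 0
      · exact huv' hu rfl
      · apply hx0
        funext i
        have := huv i
        rw [zero_mul, add_zero] at this
        exact (mul_eq_zero.mp this).resolve_left hu
    have : a = (-(u / v)) • x := by
      funext i
      have h1 := huv i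
      rw [Pi.smul_apply, smul_eq_mul]
      field_simp
      linear_combination h1
    rw [this, TD_smul_left, TD_self, hx]
    ring

theorem factB [PerfectField k] {c : Ix → k} (hsm : SmoothT c) {x y : Fin 4 → k} (hx0 : x ≠ 0)
    (hx : TF c x = 0) (hy : TD c x y = 1) (hng : ¬ Good c x) (a : Fin 4 → k)
    (ha : TD c x a = 0) (hI : Ind x a) : TF c a ≠ 0 := by
  intro hF
  obtain ⟨a1, hf⟩ := exists_frame hx ha hI hy
  have hq := factA hsm hx0 hx hy hng a ha
  apply hng
  refine hf.good (cgood_two _ 0 1 (Or.inr one_ne_zero) ?_ ?_)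
  · simp [cfOf, hq]
  · simp [cfOf, hF]

theorem polar_zero {c : Ix → k} {x : Fin 4 → k} (hA : ∀ a, TD c x a = 0 → TD c a x = 0)
    (a b : Fin 4 → k) (ha : TD c x a = 0) (hb : TD c x b = 0) : TT c x a b = 0 := by
  have h1 := hA (a + b) (by rw [TD_add_right, ha, hb, add_zero])
  rw [TD_add_left, hA a ha, hA b hb, zero_add, zero_add] at h1
  rw [TT_comm12, TT_comm23]
  exact h1

theorem factC [PerfectField k] {c : Ix → k} (hsm : SmoothT c) {x : Fin 4 → k} (hx0 : x ≠ 0)
    (hx : TF c x = 0) (hng : ¬ Good c x) (y : Fin 4 → k) (hy : TD c x y = 1) :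
    TD c y x ^ 2 ≠ 4 * TF c y := by
  intro hdisc
  obtain ⟨a, ha, hI⟩ := exists_a hx0 hx hy
  obtain ⟨a1, hf⟩ := exists_frame hx ha hI hy
  have hA := factA hsm hx0 hx hy hng
  obtain ⟨r, hr1, hr2⟩ : ∃ r : k, TD c y x = -(2 * r) ∧ TF c y = r ^ 2 := by
    by_cases h2 : (2 : k) = 0
    · haveI : CharP k 2 := CharTwo.of_one_ne_zero_of_two_eq_zero one_ne_zero h2
      have : Fact (Nat.Prime 2) := ⟨Nat.prime_two⟩
      have : ExpChar k 2 := ExpChar.prime Nat.prime_two
      have : PerfectRing k 2 := PerfectField.toPerfectRing 2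
      obtain ⟨r, hr⟩ := surjective_frobenius k 2 (TF c y)
      rw [frobenius_def] at hr
      refine ⟨r, ?_, hr.symm⟩
      have h4 : (4 : k) = 0 := by
        have : (4 : k) = 2 * 2 := by norm_num
        rw [this, h2, mul_zero]
      rw [h4, zero_mul] at hdisc
      rw [h2, zero_mul, neg_zero]
      exact pow_eq_zero_iff (two_ne_zero) |>.mp hdisc
    · refine ⟨-(TD c y x / 2), ?_, ?_⟩
      · field_simp
      · have h4 : (4 : k) ≠ 0 := by
          have : (4 : k) = 2 * 2 := by norm_num
          rw [this]; exact mul_ne_zero h2 h2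
        have : TF c y = TD c y x ^ 2 / 4 := by rw [hdisc]; field_simp
        rw [this]
        have h22 : (4 : k) = 2 * 2 := by norm_num
        rw [h22]
        field_simp
  have hfz := hf.shearY r
  apply hng
  refine hfz.good (cgood_four _ ?_ ?_ ?_ ?_ ?_)
  · exact hA a1 hf.h1
  · exact hA a hf.h2
  · exact polar_zero hA a1 a hf.h1 hf.h2
  · change TD c (y + r • x) x = 0
    rw [TD_add_left, TD_smul_left, TT_smul2, TD_self, hx, hr1, TT_comm12, TT_comm23, TT_self, hy]
    ring
  · change TF c (y + r • x) = 0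
    rw [TF_add, TD_smul_right, TD_smul_left, TF_smul, hx, hy, hr1, hr2]
    ring

theorem factD [PerfectField k] {c : Ix → k} (hsm : SmoothT c) {x : Fin 4 → k} (hx0 : x ≠ 0)
    (hx : TF c x = 0) (hng : ¬ Good c x) (y : Fin 4 → k) (hy : TD c x y = 1) (a : Fin 4 → k)
    (ha : TD c x a = 0) (hI : Ind x a) :
    (TD c y x ^ 2 - 4 * TF c y) * TD c a y + TF c y * TT c x a y ^ 2
      - TD c y x * TT c x a y * TD c y a + TD c y a ^ 2 = 0 := by
  by_contra hB
  obtain ⟨a1, hf⟩ := exists_frame hx ha hI hy
  have hA := factA hsm hx0 hx hy hng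
  apply hng
  refine hf.good (cgood_five _ ?_ ?_ ?_ (factC hsm hx0 hx hng y hy) ?_ ?_)
  · exact hA a1 hf.h1
  · exact hA a hf.h2
  · exact polar_zero hA a1 a hf.h1 hf.h2
  · exact hB
  · intro X Y hXY
    by_contra hne
    have hor : X ≠ 0 ∨ Y ≠ 0 := by
      by_contra h1
      push Not at h1
      exact hne h1
    refine factB hsm hx0 hx hy hng (X • a1 + Y • a) ?_ (hf.ind X Y hor) ?_
    · rw [TD_add_right, TD_smul_right, TD_smul_right, hf.h1, hf.h2]; ring
    · rw [TF_add, TF_smul, TF_smul, TD_smul_left, TD_smul_right, TD_smul_left, TD_smul_right]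
      simp only [cfOf] at hXY
      linear_combination hXY

end Pool.Agent.W510.Cub
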