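import Pool.Agent.W510.Cub.FactB

/-!
The final algebraic contradiction.
-/

namespace Pool.Agent.W510.Cub

variable {k : Type*} [Field k]

/-- The collected consequences of the absence of curves through `x`. -/
structure Bad (c : Ix → k) (x : Fin 4 → k) : Prop where
  hx : TF c x = 0
  hA : ∀ a, TD c x a = 0 → TD c a x = 0
  hB : ∀ a, TD c x a = 0 → Ind x a → TF c a ≠ 0
  hC : ∀ y, TD c x y = 1 → TD c y x ^ 2 ≠ 4 * TF c y
  hD : ∀ y, TD c x y = 1 → ∀ a, TD c x a = 0 → Ind x a →
    (TD c y x ^ 2 - 4 * TF c y) * TD c a y + TF c y * TT c x a y ^ 2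
      - TD c y x * TT c x a y * TD c y a + TD c y a ^ 2 = 0

/-- Values of all the invariants after moving `y` by a tangent vector `b`. -/
theorem Bad.move {c : Ix → k} {x : Fin 4 → k} (h : Bad c x) {y : Fin 4 → k}
    (hy : TD c x y = 1) {a b : Fin 4 → k} (ha : TD c x a = 0) (hb : TD c x b = 0)
    (hI : Ind x a) :
    ((TD c y x + TT c x b y) ^ 2 - 4 * (TF c y + TD c y b + TD c b y + TF c b))
        * (TD c a y + TD c a b)
      + (TF c y + TD c y b + TD c b y + TF c b) * TT c x a y ^ 2
      - (TD c y x + TT c x b y) * TT c x a y * (TD c y a + TD c b a + TT c a b y)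
      + (TD c y a + TD c b a + TT c a b y) ^ 2 = 0 := by
  have hp := polar_zero h.hA a b ha hb
  have h1 := h.hD (y + b) (by rw [TD_add_right, hy, hb, add_zero]) a ha hI
  rw [TF_add, TD_add_left, TD_add_left, TD_add_right, h.hA b hb, TT_add3, hp] at h1
  have e1 : TT c y b x = TT c x b y := by
    rw [TT_comm23, TT_comm12, TT_comm23]
  have e2 : TT c y b a = TT c a b y := by
    rw [TT_comm23, TT_comm12, TT_comm23]
  rw [e1, e2] at h1
  linear_combination h1

theorem Bad.disc {c : Ix → k} {x : Fin 4 → k} (h : Bad c x) {y : Fin 4 → k}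
    (hy : TD c x y = 1) {b : Fin 4 → k} (hb : TD c x b = 0) :
    (TD c y x + TT c x b y) ^ 2 ≠ 4 * (TF c y + TD c y b + TD c b y + TF c b) := by
  have h1 := h.hC (y + b) (by rw [TD_add_right, hy, hb, add_zero])
  rw [TF_add, TD_add_left, h.hA b hb] at h1
  have e1 : TT c y b x = TT c x b y := by
    rw [TT_comm23, TT_comm12, TT_comm23]
  rw [e1] at h1
  intro h2
  apply h1
  linear_combination h2

/-- Characteristic two. -/
theorem Bad.false_two {c : Ix → k} {x a1 a2 y : Fin 4 → k} (h : Bad c x)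
    (hf : Frame c x a1 a2 y) (h2 : (2 : k) = 0) : False := by
  have hI1 : Ind x a1 := by
    have := hf.ind 1 0 (Or.inl one_ne_zero)
    simpa using this
  have hI2 : Ind x a2 := by
    have := hf.ind 0 1 (Or.inr one_ne_zero)
    simpa using this
  have h4 : (4 : k) = 0 := by
    have : (4 : k) = 2 * 2 := by norm_num
    rw [this, h2, mul_zero]
  -- the forms L
  have hL : ∀ a, TD c x a = 0 → TT c x a y = 0 := by
    intro a ha
    by_contra hne
    apply h.disc hf.hy (b := (-(TD c y x / TT c x a y)) • a)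
      (by rw [TD_smul_right, ha, mul_zero])
    rw [h4, zero_mul, TT_smul2]
    field_simp
    ring
  have hc : TD c y x ≠ 0 := by
    intro h0
    apply h.hC y hf.hy
    rw [h0, h4]; ring
  set cc := TD c y x with hcc
  -- the basic relation
  have hbase : ∀ a, TD c x a = 0 → Ind x a → cc ^ 2 * TD c a y + TD c y a ^ 2 = 0 := by
    intro a ha hI
    have := h.hD y hf.hy a ha hI
    rw [h4, hL a ha] at this
    linear_combination this
  have hmove : ∀ a b, TD c x a = 0 → TD c x b = 0 → Ind x a →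
      cc ^ 2 * (TD c a y + TD c a b) + (TD c y a + TD c b a + TT c a b y) ^ 2 = 0 := by
    intro a b ha hb hI
    have := h.move hf.hy ha hb hI
    rw [h4, hL a ha, hL b hb] at this
    linear_combination this
  have b1 := hbase a1 hf.h1 hI1
  have b2 := hbase a2 hf.h2 hI2
  have b12 := hbase (a1 + a2) (by rw [TD_add_right, hf.h1, hf.h2, add_zero])
    (by simpa using hf.ind 1 1 (Or.inl one_ne_zero))
  have hr12 : TT c a1 a2 y = 0 := by
    rw [TD_add_left, TD_add_right] at b12
    have : cc ^ 2 * TT c a1 a2 y = 0 := by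
      linear_combination b12 - b1 - b2 - (TD c y a1 * TD c y a2) * h2
    exact (mul_eq_zero.mp this).resolve_left (pow_ne_zero _ hc)
  -- values of the cubic form
  have hphi : ∀ a, TD c x a = 0 → Ind x a → TF c a = cc ^ 2 := by
    intro a ha hI
    have h1 := hmove a a ha ha hI
    have h3 := hbase a ha hI
    rw [TT_self, TD_self] at h1
    have h5 : TF c a * (TF c a - cc ^ 2) = 0 := by
      linear_combination h1 - h3
        - (TD c y a * 3 * TF c a + 2 * TD c y a * TD c a y + 2 * cc ^ 2 * TF c a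
          + 4 * TF c a ^ 2 + 6 * TF c a * TD c a y + 2 * TD c a y ^ 2) * h2
    have h6 := (mul_eq_zero.mp h5).resolve_left (h.hB a ha hI)
    linear_combination h6
  have f1 := hphi a1 hf.h1 hI1
  have f2 := hphi a2 hf.h2 hI2
  have m12 := hmove a1 a2 hf.h1 hf.h2 hI1
  have m21 := hmove a2 a1 hf.h2 hf.h1 hI2
  have hr21 : TT c a2 a1 y = 0 := by rw [TT_comm12, hr12]
  rw [hr12] at m12
  rw [hr21] at m21
  set e1 := TD c a1 a2 with he1
  set e2 := TD c a2 a1 with he2
  have g1 : cc ^ 2 * e1 = e2 ^ 2 := by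
    linear_combination m12 - b1 - (TD c y a1 * e2 + e2 ^ 2) * h2
  have g2 : cc ^ 2 * e2 = e1 ^ 2 := by
    linear_combination m21 - b2 - (TD c y a2 * e1 + e1 ^ 2) * h2
  by_cases he : e1 = 0
  · have he2' : e2 = 0 := by
      rw [he, mul_zero] at g1
      exact (pow_eq_zero_iff two_ne_zero).mp g1.symm
    apply h.hB (a1 + a2) (by rw [TD_add_right, hf.h1, hf.h2, add_zero])
      (by simpa using hf.ind 1 1 (Or.inl one_ne_zero))
    rw [TF_add, f1, f2, ← he1, ← he2, he, he2']
    linear_combination cc ^ 2 * h2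
  · have g3 : e1 ^ 3 = cc ^ 6 := by
      have : e1 * (e1 ^ 3 - cc ^ 6) = 0 := by
        linear_combination (-(e1 ^ 2 + cc ^ 2 * e2)) * g2 - cc ^ 4 * g1
      have := (mul_eq_zero.mp this).resolve_left he
      linear_combination this
    have g4 : e1 * e2 = cc ^ 4 := by
      have : cc ^ 2 * (e1 * e2 - cc ^ 4) = 0 := by
        linear_combination e1 * g2 + g3
      have := (mul_eq_zero.mp this).resolve_left (pow_ne_zero _ hc)
      linear_combination this
    apply h.hB (e1 • a1 + (cc ^ 2) • a2)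
      (by rw [TD_add_right, TD_smul_right, TD_smul_right, hf.h1, hf.h2]; ring)
      (hf.ind e1 (cc ^ 2) (Or.inl he))
    rw [TF_add, TF_smul, TF_smul, TD_smul_left, TD_smul_right, TD_smul_left, TD_smul_right,
      f1, f2, ← he1, ← he2]
    linear_combination (e1 ^ 3 * cc ^ 2) * h2 + cc ^ 4 * g4 + (cc ^ 8) * h2

/-- In odd characteristic the frame can be normalised. -/
theorem Bad.norm {c : Ix → k} {x a1 a2 y : Fin 4 → k} (h : Bad c x)
    (hf : Frame c x a1 a2 y) (h2 : (2 : k) ≠ 0) :
    ∃ b1 b2 z, Frame c x b1 b2 z ∧ TD c z x = 0 ∧ TT c x b1 z = 0 ∧ TT c x b2 z = 0 := by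
  have hf1 := hf.shearY (-(TD c y x / 2))
  set z := y + (-(TD c y x / 2)) • x with hz
  have hzx : TD c z x = 0 := by
    rw [hz, TD_add_left, TD_smul_left, TT_smul2, TD_self, h.hx, TT_comm12, TT_comm23, TT_self,
      hf.hy]
    field_simp
    ring
  have hf2 := hf1.shear (-(TT c x a1 z / 2)) (-(TT c x a2 z / 2))
  refine ⟨_, _, z, hf2, hzx, ?_, ?_⟩
  · rw [TT_add2, TT_smul2, TT_self, hf1.hy]
    field_simp
    ring
  · rw [TT_add2, TT_smul2, TT_self, hf1.hy]
    field_simp
    ring

/-- Odd characteristic. -/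
theorem Bad.false_odd [PerfectField k] {c : Ix → k} {x a1 a2 y : Fin 4 → k} (h : Bad c x)
    (hf : Frame c x a1 a2 y) (h2 : (2 : k) ≠ 0) (hc : TD c y x = 0) (hL1 : TT c x a1 y = 0)
    (hL2 : TT c x a2 y = 0) : False := by
  have hI1 : Ind x a1 := by
    have := hf.ind 1 0 (Or.inl one_ne_zero)
    simpa using this
  have hI2 : Ind x a2 := by
    have := hf.ind 0 1 (Or.inr one_ne_zero)
    simpa using this
  have hn : TF c y ≠ 0 := by
    intro h0
    apply h.hC y hf.hy
    rw [hc, h0]; ring
  set n := TF c y with hnn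
  have h4 : (4 : k) ≠ 0 := by
    have : (4 : k) = 2 * 2 := by norm_num
    rw [this]; exact mul_ne_zero h2 h2
  -- relations for `a` in the plane
  have hbase : ∀ a, TD c x a = 0 → TT c x a y = 0 → Ind x a →
      -(4 * n * TD c a y) + TD c y a ^ 2 = 0 := by
    intro a ha hLa hI
    have := h.hD y hf.hy a ha hI
    rw [hc, hLa] at this
    linear_combination this
  have hmove : ∀ a b, TD c x a = 0 → TD c x b = 0 → TT c x a y = 0 → TT c x b y = 0 →
      Ind x a →
      -(4 * (n + TD c y b + TD c b y + TF c b) * (TD c a y + TD c a b))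
        + (TD c y a + TD c b a + TT c a b y) ^ 2 = 0 := by
    intro a b ha hb hLa hLb hI
    have := h.move hf.hy ha hb hI
    rw [hc, hLa, hLb] at this
    linear_combination this
  have hmove' : ∀ a b, TD c x a = 0 → TD c x b = 0 → TT c x a y = 0 → TT c x b y = 0 →
      Ind x a →
      -(4 * (n - TD c y b + TD c b y - TF c b) * (TD c a y - TD c a b))
        + (TD c y a + TD c b a - TT c a b y) ^ 2 = 0 := by
    intro a b ha hb hLa hLb hI
    have := hmove a ((-1 : k) • b) ha (by rw [TD_smul_right, hb]; ring) hLa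
      (by rw [TT_smul2, hLb]; ring) hI
    rw [TD_smul_right, TD_smul_right, TD_smul_left, TD_smul_left, TF_smul, TT_smul2] at this
    linear_combination this
  by_cases h3 : (3 : k) = 0
  · -- characteristic three
    have hkey : ∀ a, TD c x a = 0 → TT c x a y = 0 → Ind x a →
        TD c a y = 0 ∧ TD c y a = 0 := by
      intro a ha hLa hI
      have m0 := hbase a ha hLa hI
      have m1 := hmove a a ha ha hLa hLa hI
      rw [TD_self, TT_self] at m1
      set R := TD c a y with hR
      set δ := TD c y a with hδ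
      set φ := TF c a with hφ
      have h5 : φ * R = 0 := by
        linear_combination (-1 : k) * m1 + m0 + (-R * φ - 4 * n * φ - 4 * δ * φ - 4 * R * φ
          - 4 * φ ^ 2 + 3 * φ ^ 2 + 2 * δ * φ + 4 * R * φ) * h3
      have hR0 : R = 0 := (mul_eq_zero.mp h5).resolve_left (h.hB a ha hI)
      rw [hR0, mul_zero, neg_zero, zero_add] at m0
      exact ⟨hR0, (pow_eq_zero_iff two_ne_zero).mp m0⟩
    obtain ⟨R1, d1⟩ := hkey a1 hf.h1 hL1 hI1
    obtain ⟨R2, d2⟩ := hkey a2 hf.h2 hL2 hI2
    obtain ⟨R12, -⟩ := hkey (a1 + a2) (by rw [TD_add_right, hf.h1, hf.h2, add_zero])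
      (by rw [TT_add2, hL1, hL2, add_zero]) (by simpa using hf.ind 1 1 (Or.inl one_ne_zero))
    rw [TD_add_left, R1, R2, zero_add, zero_add] at R12
    have m1 := hmove a1 a2 hf.h1 hf.h2 hL1 hL2 hI1
    have m2 := hmove' a1 a2 hf.h1 hf.h2 hL1 hL2 hI1
    rw [R1, R2, d1, d2, R12] at m1 m2
    set e1 := TD c a1 a2 with he1
    set e2 := TD c a2 a1 with he2
    have he1' : e1 = 0 := by
      have : n * e1 = 0 := by
        linear_combination (-1 : k) * m2 + m1 + 3 * n * e1 * h3
      exact (mul_eq_zero.mp this).resolve_left hn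
    have he2' : e2 = 0 := by
      rw [he1'] at m1
      have : e2 ^ 2 = 0 := by linear_combination m1
      exact (pow_eq_zero_iff two_ne_zero).mp this
    have hchar : CharP k 3 := by
      have h3' : ((3 : ℕ) : k) = 0 := by exact_mod_cast h3
      exact (CharP.charP_iff_prime_eq_zero Nat.prime_three).mpr h3'
    have : Fact (Nat.Prime 3) := ⟨Nat.prime_three⟩
    have : ExpChar k 3 := ExpChar.prime Nat.prime_three
    have : PerfectRing k 3 := PerfectField.toPerfectRing 3
    obtain ⟨g1, hg1⟩ := surjective_frobenius k 3 (TF c a1)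
    obtain ⟨g2, hg2⟩ := surjective_frobenius k 3 (TF c a2)
    rw [frobenius_def] at hg1 hg2
    have hg2ne : g2 ≠ 0 := by
      rintro rfl
      apply h.hB a2 hf.h2 hI2
      rw [← hg2]; ring
    apply h.hB (g2 • a1 + (-g1) • a2)
      (by rw [TD_add_right, TD_smul_right, TD_smul_right, hf.h1, hf.h2]; ring)
      (hf.ind g2 (-g1) (Or.inl hg2ne))
    rw [TF_add, TF_smul, TF_smul, TD_smul_left, TD_smul_right, TD_smul_left, TD_smul_right,
      ← he1, ← he2, he1', he2', ← hg1, ← hg2]
    ring
  · -- characteristic neither two nor three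
    obtain ⟨v1, v2, hv, hδ⟩ : ∃ v1 v2 : k, (v1 ≠ 0 ∨ v2 ≠ 0) ∧
        v1 * TD c y a1 + v2 * TD c y a2 = 0 := by
      by_cases h1 : TD c y a1 = 0
      · exact ⟨1, 0, Or.inl one_ne_zero, by simp [h1]⟩
      · exact ⟨TD c y a2, -TD c y a1, Or.inr (neg_ne_zero.mpr h1), by ring⟩
    set v := v1 • a1 + v2 • a2 with hvdef
    have hxv : TD c x v = 0 := by
      rw [hvdef, TD_add_right, TD_smul_right, TD_smul_right, hf.h1, hf.h2]; ring
    have hLv : TT c x v y = 0 := by
      rw [hvdef, TT_add2, TT_smul2, TT_smul2, hL1, hL2]; ring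
    have hyv : TD c y v = 0 := by
      rw [hvdef, TD_add_right, TD_smul_right, TD_smul_right]; exact hδ
    have hIv : Ind x v := hf.ind v1 v2 hv
    have hφ := h.hB v hxv hIv
    have m0 := hbase v hxv hLv hIv
    have m1 := hmove v v hxv hxv hLv hLv hIv
    have m2 := hmove' v v hxv hxv hLv hLv hIv
    have hR : TD c v y = 0 := by
      rw [hyv] at m0
      have : 4 * n * TD c v y = 0 := by linear_combination -m0
      exact (mul_eq_zero.mp this).resolve_left (mul_ne_zero h4 hn)
    rw [TD_self, TT_self, hyv, hR] at m1 m2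
    set φ := TF c v with hφdef
    have h6 : (2 * 3) * φ ^ 2 = 0 := by
      linear_combination (-1 : k) * m1 - m2
    exact hφ ((pow_eq_zero_iff two_ne_zero).mp
      ((mul_eq_zero.mp h6).resolve_left (mul_ne_zero h2 h3)))

/-- The collected consequences are contradictory. -/
theorem Bad.false [PerfectField k] {c : Ix → k} {x y : Fin 4 → k} (hx0 : x ≠ 0) (h : Bad c x)
    (hy : TD c x y = 1) : False := by
  obtain ⟨a, ha, hI⟩ := exists_a hx0 h.hx hy
  obtain ⟨a1, hf⟩ := exists_frame h.hx ha hI hy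
  by_cases h2 : (2 : k) = 0
  · exact h.false_two hf h2
  · obtain ⟨b1, b2, z, hfz, hc, hL1, hL2⟩ := h.norm hf h2
    exact h.false_odd hfz h2 hc hL1 hL2

/-- Main theorem, tensor form. -/
theorem good_of_smooth [PerfectField k] {c : Ix → k} (hsm : SmoothT c) {x : Fin 4 → k}
    (hx0 : x ≠ 0) (hx : TF c x = 0) : Good c x := by
  by_contra hng
  obtain ⟨y, hy⟩ : ∃ y, TD c x y = 1 := by
    have hxK : (fun i => algebraMap k (AlgebraicClosure k) (x i)) ≠ 0 := by
      intro h0
      apply hx0
      funext i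
      have := congrFun h0 i
      simpa using this
    obtain ⟨w, hw⟩ := hsm _ hxK (by rw [TF_map, hx, map_zero])
    rw [TD_map, Ne, map_eq_zero_iff _ (algebraMap k _).injective] at hw
    refine ⟨(TD c x w)⁻¹ • w, ?_⟩
    rw [TD_smul_right, inv_mul_cancel₀ hw]
  have hbad : Bad c x :=
    { hx := hx
      hA := factA hsm hx0 hx hy hng
      hB := factB hsm hx0 hx hy hng
      hC := factC hsm hx0 hx hng
      hD := factD hsm hx0 hx hng }
  exact hbad.false hx0 hy

end Pool.Agent.W510.Cub
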