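import Pool.Agent.W510.Cub.Tensor
import Pool.Agent.W510.Cub.CaseB
import Pool.Agent.W510.Cub.CaseC
import Pool.Agent.W510.Cub.CaseE

/-!
Frames adapted to a point of a cubic surface.
-/

namespace Pool.Agent.W510.Cub

open Polynomial

variable {k : Type*} [Field k]

/-- There is a polynomial curve on the surface through the point `x`. -/
def Good (c : Ix → k) (x : Fin 4 → k) : Prop :=
  ∃ g : Fin 4 → k[X], TF (fun p => C (c p)) g = 0 ∧
    (∃ t s : AlgebraicClosure k, s ≠ 0 ∧ ∀ i, aeval t (g i) = s * algebraMap k _ (x i)) ∧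
    ¬ ∃ h : k[X], ∀ i, g i = h * C (x i)

/-- A frame adapted to the point `x`. -/
structure Frame (c : Ix → k) (x a1 a2 y : Fin 4 → k) : Prop where
  hx : TF c x = 0
  h1 : TD c x a1 = 0
  h2 : TD c x a2 = 0
  hy : TD c x y = 1
  li : ∀ u0 u1 u2 u3 : k, (∀ i, u0 * x i + u1 * a1 i + u2 * a2 i + u3 * y i = 0) →
    u0 = 0 ∧ u1 = 0 ∧ u2 = 0 ∧ u3 = 0

theorem Frame.good {c : Ix → k} {x a1 a2 y : Fin 4 → k} (h : Frame c x a1 a2 y)
    (hg : CGood (cfOf c x a1 a2 y)) : Good c x := by
  obtain ⟨g, hg0, ⟨t, ht0, ht1, ht2, ht3⟩, hne⟩ := hg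
  refine ⟨fun i => g 0 * C (x i) + g 1 * C (a1 i) + g 2 * C (a2 i) + g 3 * C (y i), ?_,
    ⟨t, aeval t (g 0), ht0, ?_⟩, ?_⟩
  · rw [TF_eq_G (fun p => C (c p)) (fun i => C (x i)) (fun i => C (a1 i)) (fun i => C (a2 i))
      (fun i => C (y i)) (by rw [TF_map, h.hx, map_zero]) (by rw [TD_map, h.h1, map_zero])
      (by rw [TD_map, h.h2, map_zero]) (by rw [TD_map, h.hy, map_one]) g, cfOf_map, hg0]
  · intro i
    simp [ht1, ht2, ht3]
  · rintro ⟨p, hp⟩
    have key : ∀ n, (g 1).coeff n = 0 ∧ (g 2).coeff n = 0 ∧ (g 3).coeff n = 0 := by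
      intro n
      have := h.li ((g 0 - p).coeff n) ((g 1).coeff n) ((g 2).coeff n) ((g 3).coeff n) (by
        intro i
        have h1 := congrArg (fun q => coeff q n) (hp i)
        simp only [coeff_add, coeff_mul_C] at h1
        rw [coeff_sub]
        linear_combination h1)
      exact ⟨this.2.1, this.2.2.1, this.2.2.2⟩
    rcases hne with h0 | h0 | h0
    · exact h0 (Polynomial.ext fun n => by simpa using (key n).1)
    · exact h0 (Polynomial.ext fun n => by simpa using (key n).2.1)
    · exact h0 (Polynomial.ext fun n => by simpa using (key n).2.2)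

/-- `x` and `a` are linearly independent. -/
def Ind (x a : Fin 4 → k) : Prop :=
  ∀ u v : k, (∀ i, u * x i + v * a i = 0) → u = 0 ∧ v = 0

theorem exists_frame {c : Ix → k} {x a y : Fin 4 → k} (hx : TF c x = 0) (ha : TD c x a = 0)
    (hxa : Ind x a) (hy : TD c x y = 1) : ∃ a1, Frame c x a1 a y := by
  have hxx : TD c x x = 0 := by rw [TD_self, hx, mul_zero]
  have hli3 : LinearIndependent k ![x, a, y] := by
    rw [Fintype.linearIndependent_iff]
    intro g hg
    rw [Fin.sum_univ_three] at hg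
    simp only [Matrix.cons_val_zero, Matrix.cons_val_one, Matrix.cons_val] at hg
    have h1 := congrArg (TD c x) hg
    rw [TD_add_right, TD_add_right, TD_smul_right, TD_smul_right, TD_smul_right, hxx, ha, hy,
      mul_zero, mul_zero, mul_one, zero_add, zero_add] at h1
    have h2 : TD c x 0 = 0 := by simp [TD]
    rw [h2] at h1
    rw [h1, zero_smul, add_zero] at hg
    have h3 := hxa (g 0) (g 1) (fun i => by simpa using congrFun hg i)
    intro i
    fin_cases i
    · exact h3.1
    · exact h3.2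
    · exact h1
  obtain ⟨w, hw0⟩ := exists_linearIndependent_cons_of_lt_finrank hli3 (by simp)
  have hw : LinearIndependent k ![w, x, a, y] := hw0
  rw [Fintype.linearIndependent_iff] at hw
  refine ⟨w + (-TD c x w) • y, hx, ?_, ha, hy, ?_⟩
  · rw [TD_add_right, TD_smul_right, hy]
    ring
  · intro u0 u1 u2 u3 hu
    have := hw ![u1, u0, u2, u3 - u1 * TD c x w] (by
      rw [Fin.sum_univ_four]
      funext i
      have := hu i
      simp at this ⊢
      linear_combination this)
    have e0 := this 0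
    have e1 := this 1
    have e2 := this 2
    have e3 := this 3
    simp only [Matrix.cons_val_zero, Matrix.cons_val_one, Matrix.cons_val] at e0 e1 e2 e3
    refine ⟨e1, e0, e2, ?_⟩
    rw [e0] at e3
    linear_combination e3

end Pool.Agent.W510.Cub
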