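import Pool.Agent.W510.Cub.FactE

/-!
From polynomial curves to morphisms from the projective line.
-/

namespace Pool.Agent.W510.Cub

open Polynomial

variable {k : Type*} [Field k]

theorem eval_homogenize_zero {K : Type*} [CommRing K] (p : K[X]) (n : ℕ) (v : Fin 2 → K)
    (hv : v 1 = 0) : MvPolynomial.eval v (p.homogenize n) = p.coeff n * v 0 ^ n := by
  simp only [homogenize, MvPolynomial.eval_sum, MvPolynomial.eval_monomial]
  rw [Finset.sum_eq_single (n, 0)]
  · rw [Finsupp.update_eq_add_single (by simp), Finsupp.prod_add_index' (by simp) (by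
      intros; rw [pow_add])]
    simp
  · rintro ⟨a, b⟩ hab hne
    have hb : b ≠ 0 := by
      rintro rfl
      rw [Finset.HasAntidiagonal.mem_antidiagonal] at hab
      apply hne
      simp only [Prod.mk.injEq, and_true]
      omega
    rw [Finsupp.update_eq_add_single (by simp), Finsupp.prod_add_index' (by simp) (by
      intros; rw [pow_add])]
    simp [hv, hb]
  · intro h
    exact absurd (Finset.HasAntidiagonal.mem_antidiagonal.mpr (by simp)) h

theorem TF_homogenize (c : Ix → k) (g : Fin 4 → k[X]) (e : ℕ) (he : ∀ i, (g i).natDegree ≤ e)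
    (h : TF (fun p => C (c p)) g = 0) :
    TF (fun p => MvPolynomial.C (c p)) (fun i => (g i).homogenize e) = 0 := by
  have h1 : homogenize (TF (fun p => C (c p)) g) (e + e + e) = 0 := by rw [h, homogenize_zero]
  rw [← h1]
  simp only [TF, homogenize_finsetSum]
  refine Finset.sum_congr rfl fun p _ => ?_
  rw [homogenize_C_mul, homogenize_mul _ _ ?_ (he _), homogenize_mul _ _ (he _) (he _)]
  exact natDegree_mul_le.trans (add_le_add (he _) (he _))

/-- From a polynomial curve to a tuple of binary forms without common zeros. -/
theorem Good.forms {c : Ix → k} {x : Fin 4 → k} (hx0 : x ≠ 0) (hg : Good c x) :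
    ∃ (e : ℕ) (f : Fin 4 → MvPolynomial (Fin 2) k), 0 < e ∧ (∀ i, (f i).IsHomogeneous e) ∧
      (∀ v : Fin 2 → AlgebraicClosure k, (∀ i, MvPolynomial.aeval v (f i) = 0) → v = 0) ∧
      TF (fun p => MvPolynomial.C (c p)) f = 0 ∧
      ∃ v : Fin 2 → AlgebraicClosure k, v ≠ 0 ∧ ∃ s : AlgebraicClosure k, s ≠ 0 ∧
        ∀ i, MvPolynomial.aeval v (f i) = s * algebraMap k _ (x i) := by
  classical
  obtain ⟨g, hG, ⟨t, s, hs, ht⟩, hne⟩ := hg
  -- divide by the greatest common divisor
  set I : Ideal k[X] := Ideal.span (Set.range g) with hI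
  set h : k[X] := Submodule.IsPrincipal.generator I with hh
  have hgen : Ideal.span {h} = I := Ideal.span_singleton_generator I
  have hdvd : ∀ i, h ∣ g i := by
    intro i
    rw [← Ideal.mem_span_singleton, hgen]
    exact Ideal.subset_span ⟨i, rfl⟩
  choose g' hg' using hdvd
  have hx : ∃ j, x j ≠ 0 := by
    by_contra hcon
    push Not at hcon
    exact hx0 (funext hcon)
  obtain ⟨j, hj⟩ := hx
  have hht : aeval t h ≠ 0 := by
    intro h0
    have h1 := ht j
    rw [hg' j, map_mul, h0, zero_mul] at h1
    have : algebraMap k (AlgebraicClosure k) (x j) ≠ 0 := by simpa using hj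
    exact mul_ne_zero hs this h1.symm
  have hh0 : h ≠ 0 := by
    intro h0
    rw [h0] at hht
    simp at hht
  have hbez : ∃ a : Fin 4 → k[X], ∑ i, a i * g' i = 1 := by
    have : h ∈ Ideal.span (Set.range g) := by
      rw [← hI, ← hgen]
      exact Ideal.mem_span_singleton_self h
    rw [Ideal.mem_span_range_iff_exists_fun] at this
    obtain ⟨a, ha⟩ := this
    refine ⟨a, ?_⟩
    apply mul_left_cancel₀ hh0
    rw [mul_one, Finset.mul_sum]
    calc ∑ i, h * (a i * g' i) = ∑ i, a i * g i := by
          refine Finset.sum_congr rfl fun i _ => ?_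
          rw [hg' i]; ring
      _ = h := ha
  obtain ⟨a, ha⟩ := hbez
  have hG' : TF (fun p => C (c p)) g' = 0 := by
    have h1 : g = h • g' := by
      funext i
      rw [Pi.smul_apply, smul_eq_mul, hg' i]
    rw [h1, TF_smul] at hG
    exact (mul_eq_zero.mp hG).resolve_left (pow_ne_zero _ hh0)
  -- the degree
  set e : ℕ := Finset.univ.sup (fun i => (g' i).natDegree) with he
  have hdeg : ∀ i, (g' i).natDegree ≤ e := fun i =>
    Finset.le_sup (f := fun i => (g' i).natDegree) (Finset.mem_univ i)
  obtain ⟨m, hm⟩ : ∃ m, (g' m).natDegree = e := by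
    obtain ⟨m, -, hm⟩ := Finset.exists_mem_eq_sup Finset.univ Finset.univ_nonempty
      (fun i => (g' i).natDegree)
    exact ⟨m, hm.symm⟩
  have hval : ∀ i, aeval t (g' i) = (s / aeval t h) * algebraMap k _ (x i) := by
    intro i
    have h1 := ht i
    rw [hg' i, map_mul] at h1
    field_simp
    linear_combination h1
  have hepos : 0 < e := by
    rcases Nat.eq_zero_or_pos e with h0 | h0
    · exfalso
      have hc : ∀ i, g' i = C ((g' i).coeff 0) := by
        intro i
        apply eq_C_of_natDegree_le_zero
        have := hdeg i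
        omega
      have hc2 : ∀ i, (g' i).coeff 0 * x j = (g' j).coeff 0 * x i := by
        intro i
        apply (algebraMap k (AlgebraicClosure k)).injective
        have h1 := hval i
        have h2 := hval j
        rw [hc i, aeval_C] at h1
        rw [hc j, aeval_C] at h2
        rw [map_mul, map_mul, h1, h2]
        ring
      apply hne
      refine ⟨h * C ((g' j).coeff 0 / x j), fun i => ?_⟩
      rw [hg' i, hc i, mul_assoc, ← C_mul]
      congr 2
      have := hc2 i
      field_simp
      linear_combination this
    · exact h0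
  refine ⟨e, fun i => (g' i).homogenize e, hepos, fun i => isHomogeneous_homogenize _, ?_,
    TF_homogenize c g' e hdeg hG', ![t, 1], ?_, s / aeval t h, div_ne_zero hs hht, ?_⟩
  · intro v hv
    have hv' : ∀ i, MvPolynomial.eval v
        (((g' i).map (algebraMap k (AlgebraicClosure k))).homogenize e) = 0 := by
      intro i
      rw [homogenize_map, MvPolynomial.eval_map]
      exact hv i
    by_cases h1 : v 1 = 0
    · have h2 := hv' m
      rw [eval_homogenize_zero _ _ _ h1, coeff_map] at h2
      have h3 : (g' m).coeff e ≠ 0 := by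
        rw [← hm]
        apply leadingCoeff_ne_zero.mpr
        intro h0
        rw [h0, natDegree_zero] at hm
        omega
      have h4 : algebraMap k (AlgebraicClosure k) ((g' m).coeff e) ≠ 0 := by simpa using h3
      have h5 := (mul_eq_zero.mp h2).resolve_left h4
      have h6 : v 0 = 0 := pow_eq_zero_iff (by omega) |>.mp h5
      funext i
      fin_cases i
      · exact h6
      · exact h1
    · exfalso
      have h2 : ∀ i, aeval (v 0 / v 1) (g' i) = 0 := by
        intro i
        have h3 := hv' i
        rw [eval_homogenize (by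
          rw [natDegree_map_eq_of_injective (algebraMap k (AlgebraicClosure k)).injective]
          exact hdeg i) _ h1] at h3
        rw [aeval_def, ← eval_map]
        exact (mul_eq_zero.mp h3).resolve_right (pow_ne_zero _ h1)
      have h3 := congrArg (aeval (v 0 / v 1)) ha
      rw [map_sum, map_one] at h3
      simp only [map_mul, h2, mul_zero, Finset.sum_const_zero] at h3
      exact zero_ne_one h3
  · intro h0
    have := congrFun h0 1
    simp at this
  · intro i
    rw [aeval_homogenize_of_eq_one (hdeg i) _ (by simp)]
    simpa using hval i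

end Pool.Agent.W510.Cub
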