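import Pool.Agent.W510.Cub.Param

/-!
Passage from homogeneous cubic polynomials to tensors.
-/

namespace Pool.Agent.W510.Cub

open MvPolynomial

variable {k : Type*} [Field k]

/-- The cubic polynomial of a tensor. -/
noncomputable def polyOf (c : Ix → k) : MvPolynomial (Fin 4) k :=
  ∑ p : Ix, C (c p) * (X p.1 * X p.2.1 * X p.2.2)

theorem exists_single_of_degree {m : Fin 4 →₀ ℕ} {d : ℕ} (h : m.degree = d + 1) :
    ∃ (i : Fin 4) (m' : Fin 4 →₀ ℕ), m'.degree = d ∧ m = Finsupp.single i 1 + m' := by
  have hne : m ≠ 0 := by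
    rintro rfl
    simp at h
  obtain ⟨i, hi⟩ : ∃ i, m i ≠ 0 := by
    by_contra hcon
    push Not at hcon
    exact hne (Finsupp.ext hcon)
  have hle : Finsupp.single i 1 ≤ m := by
    rw [Finsupp.single_le_iff]
    omega
  refine ⟨i, m - Finsupp.single i 1, ?_, ?_⟩
  · have h1 : m = Finsupp.single i 1 + (m - Finsupp.single i 1) :=
      (add_tsub_cancel_of_le hle).symm
    have h2 := congrArg Finsupp.degree h1
    rw [map_add, Finsupp.degree_single, h] at h2
    omega
  · exact (add_tsub_cancel_of_le hle).symm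

theorem exists_tensor_monomial (m : Fin 4 →₀ ℕ) (hm : m.degree = 3) (a : k) :
    ∃ c : Ix → k, monomial m a = polyOf c := by
  classical
  obtain ⟨i, m1, h1, rfl⟩ := exists_single_of_degree hm
  obtain ⟨j, m2, h2, rfl⟩ := exists_single_of_degree h1
  obtain ⟨l, m3, h3, rfl⟩ := exists_single_of_degree h2
  rw [Finsupp.degree_eq_zero_iff] at h3
  subst h3
  refine ⟨Pi.single (i, j, l) a, ?_⟩
  unfold polyOf
  rw [Finset.sum_eq_single (i, j, l)]
  · rw [Pi.single_eq_same]
    simp only [X, add_zero]
    rw [monomial_mul, monomial_mul, C_mul_monomial, mul_one, mul_one, mul_one, add_assoc]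
  · intro p _ hp
    rw [Pi.single_eq_of_ne hp]
    simp
  · intro h
    exact absurd (Finset.mem_univ _) h

theorem polyOf_add (c c' : Ix → k) : polyOf c + polyOf c' = polyOf (fun p => c p + c' p) := by
  unfold polyOf
  rw [← Finset.sum_add_distrib]
  refine Finset.sum_congr rfl fun p _ => ?_
  rw [map_add]
  ring

theorem exists_tensor (F : MvPolynomial (Fin 4) k) (hF : F.IsHomogeneous 3) :
    ∃ c : Ix → k, F = polyOf c := by
  classical
  rw [F.as_sum]
  refine Finset.sum_induction _ (fun q => ∃ c : Ix → k, q = polyOf c) ?_ ?_ ?_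
  · rintro _ _ ⟨c, rfl⟩ ⟨c', rfl⟩
    exact ⟨_, polyOf_add c c'⟩
  · exact ⟨fun _ => 0, by simp [polyOf]⟩
  · intro m hm
    apply exists_tensor_monomial
    have := hF (mem_support_iff.mp hm)
    rw [Finsupp.degree_eq_weight_one]
    exact this

theorem aeval_polyOf {A : Type*} [CommRing A] [Algebra k A] (c : Ix → k) (u : Fin 4 → A) :
    aeval u (polyOf c) = TF (fun p => algebraMap k A (c p)) u := by
  simp only [polyOf, TF, map_sum, map_mul, aeval_C, aeval_X]

theorem aeval_pderiv_polyOf {A : Type*} [CommRing A] [Algebra k A] (c : Ix → k) (u : Fin 4 → A)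
    (i : Fin 4) :
    aeval u (pderiv i (polyOf c)) = TD (fun p => algebraMap k A (c p)) u
      (fun j => algebraMap k A ((Pi.single i 1 : Fin 4 → k) j)) := by
  classical
  have hX : ∀ j, aeval u (pderiv i (X j : MvPolynomial (Fin 4) k))
      = algebraMap k A ((Pi.single i 1 : Fin 4 → k) j) := by
    intro j
    by_cases h : j = i
    · subst h
      simp [pderiv_X]
    · simp [pderiv_X, Pi.single_eq_of_ne h]
  simp only [polyOf, TD, map_sum]
  refine Finset.sum_congr rfl fun p _ => ?_
  rw [Derivation.leibniz, Derivation.leibniz, Derivation.leibniz, pderiv_C]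
  simp only [map_add, map_mul, smul_eq_mul, aeval_C, aeval_X, map_zero, hX]
  ring

end Pool.Agent.W510.Cub
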