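import Pool.Agent.W510.Cub.Coord

/-!
Cubic forms in four variables given by a tensor, and their polarisations.
-/

namespace Pool.Agent.W510.Cub

open Polynomial

/-- Index type of the tensor. -/
abbrev Ix := Fin 4 × Fin 4 × Fin 4

variable {R S : Type*} [CommRing R] [CommRing S]

/-- The cubic form. -/
def TF (c : Ix → R) (u : Fin 4 → R) : R := ∑ p : Ix, c p * (u p.1 * u p.2.1 * u p.2.2)

/-- First polarisation, quadratic in `u` and linear in `v`. -/
def TD (c : Ix → R) (u v : Fin 4 → R) : R :=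
  ∑ p : Ix, c p * (v p.1 * u p.2.1 * u p.2.2 + u p.1 * v p.2.1 * u p.2.2
    + u p.1 * u p.2.1 * v p.2.2)

/-- Full polarisation. -/
def TT (c : Ix → R) (u v w : Fin 4 → R) : R :=
  ∑ p : Ix, c p * (u p.1 * v p.2.1 * w p.2.2 + u p.1 * w p.2.1 * v p.2.2
    + v p.1 * u p.2.1 * w p.2.2 + v p.1 * w p.2.1 * u p.2.2
    + w p.1 * u p.2.1 * v p.2.2 + w p.1 * v p.2.1 * u p.2.2)

theorem TF_map (φ : R →+* S) (c : Ix → R) (u : Fin 4 → R) :
    TF (fun p => φ (c p)) (fun i => φ (u i)) = φ (TF c u) := by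
  simp only [TF, map_sum, map_mul]

theorem TD_map (φ : R →+* S) (c : Ix → R) (u v : Fin 4 → R) :
    TD (fun p => φ (c p)) (fun i => φ (u i)) (fun i => φ (v i)) = φ (TD c u v) := by
  simp only [TD, map_sum, map_mul, map_add]

theorem TT_map (φ : R →+* S) (c : Ix → R) (u v w : Fin 4 → R) :
    TT (fun p => φ (c p)) (fun i => φ (u i)) (fun i => φ (v i)) (fun i => φ (w i))
      = φ (TT c u v w) := by
  simp only [TT, map_sum, map_mul, map_add]

variable (c : Ix → R)

theorem TF_add (u v : Fin 4 → R) : TF c (u + v) = TF c u + TD c u v + TD c v u + TF c v := by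
  simp only [TF, TD, ← Finset.sum_add_distrib, Pi.add_apply]
  exact Finset.sum_congr rfl fun p _ => by ring

theorem TF_smul (s : R) (u : Fin 4 → R) : TF c (s • u) = s ^ 3 * TF c u := by
  simp only [TF, Finset.mul_sum, Pi.smul_apply, smul_eq_mul]
  exact Finset.sum_congr rfl fun p _ => by ring

theorem TD_add_left (u u' v : Fin 4 → R) :
    TD c (u + u') v = TD c u v + TD c u' v + TT c u u' v := by
  simp only [TT, TD, ← Finset.sum_add_distrib, Pi.add_apply]
  exact Finset.sum_congr rfl fun p _ => by ring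

theorem TD_smul_left (s : R) (u v : Fin 4 → R) : TD c (s • u) v = s ^ 2 * TD c u v := by
  simp only [TD, Finset.mul_sum, Pi.smul_apply, smul_eq_mul]
  exact Finset.sum_congr rfl fun p _ => by ring

theorem TD_add_right (u v v' : Fin 4 → R) : TD c u (v + v') = TD c u v + TD c u v' := by
  simp only [TD, ← Finset.sum_add_distrib, Pi.add_apply]
  exact Finset.sum_congr rfl fun p _ => by ring

theorem TD_smul_right (s : R) (u v : Fin 4 → R) : TD c u (s • v) = s * TD c u v := by
  simp only [TD, Finset.mul_sum, Pi.smul_apply, smul_eq_mul]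
  exact Finset.sum_congr rfl fun p _ => by ring

theorem TD_self (u : Fin 4 → R) : TD c u u = 3 * TF c u := by
  simp only [TD, TF, Finset.mul_sum]
  exact Finset.sum_congr rfl fun p _ => by ring

theorem TT_comm12 (u v w : Fin 4 → R) : TT c u v w = TT c v u w := by
  simp only [TT]
  exact Finset.sum_congr rfl fun p _ => by ring

theorem TT_comm23 (u v w : Fin 4 → R) : TT c u v w = TT c u w v := by
  simp only [TT]
  exact Finset.sum_congr rfl fun p _ => by ring

theorem TT_self (u v : Fin 4 → R) : TT c u u v = 2 * TD c u v := by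
  simp only [TT, TD, Finset.mul_sum]
  exact Finset.sum_congr rfl fun p _ => by ring

theorem TT_add (u u' v w : Fin 4 → R) : TT c (u + u') v w = TT c u v w + TT c u' v w := by
  simp only [TT, ← Finset.sum_add_distrib, Pi.add_apply]
  exact Finset.sum_congr rfl fun p _ => by ring

theorem TT_smul (s : R) (u v w : Fin 4 → R) : TT c (s • u) v w = s * TT c u v w := by
  simp only [TT, Finset.mul_sum, Pi.smul_apply, smul_eq_mul]
  exact Finset.sum_congr rfl fun p _ => by ring

theorem TT_add2 (u v v' w : Fin 4 → R) : TT c u (v + v') w = TT c u v w + TT c u v' w := by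
  rw [TT_comm12, TT_add, TT_comm12 c v, TT_comm12 c v']

theorem TT_smul2 (s : R) (u v w : Fin 4 → R) : TT c u (s • v) w = s * TT c u v w := by
  rw [TT_comm12, TT_smul, TT_comm12 c v]

theorem TT_add3 (u v w w' : Fin 4 → R) : TT c u v (w + w') = TT c u v w + TT c u v w' := by
  rw [TT_comm23, TT_add2, TT_comm23 c u w, TT_comm23 c u w']

theorem TT_smul3 (s : R) (u v w : Fin 4 → R) : TT c u v (s • w) = s * TT c u v w := by
  rw [TT_comm23, TT_smul2, TT_comm23 c u w]

/-- The linear functional `D(u, -)`. -/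
def TDl (u : Fin 4 → R) : (Fin 4 → R) →ₗ[R] R where
  toFun := TD c u
  map_add' := TD_add_right c u
  map_smul' s v := by simp [TD_smul_right]

/-- The expansion of the cubic form in four vectors. -/
theorem TF_comb4 (u0 u1 u2 u3 : R) (m0 m1 m2 m3 : Fin 4 → R) :
    TF c (fun i => u0 * m0 i + u1 * m1 i + u2 * m2 i + u3 * m3 i) =
      u0 ^ 3 * TF c m0 + u1 ^ 3 * TF c m1 + u2 ^ 3 * TF c m2 + u3 ^ 3 * TF c m3
      + u0 ^ 2 * u1 * TD c m0 m1 + u0 ^ 2 * u2 * TD c m0 m2 + u0 ^ 2 * u3 * TD c m0 m3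
      + u1 ^ 2 * u0 * TD c m1 m0 + u1 ^ 2 * u2 * TD c m1 m2 + u1 ^ 2 * u3 * TD c m1 m3
      + u2 ^ 2 * u0 * TD c m2 m0 + u2 ^ 2 * u1 * TD c m2 m1 + u2 ^ 2 * u3 * TD c m2 m3
      + u3 ^ 2 * u0 * TD c m3 m0 + u3 ^ 2 * u1 * TD c m3 m1 + u3 ^ 2 * u2 * TD c m3 m2
      + u0 * u1 * u2 * TT c m0 m1 m2 + u0 * u1 * u3 * TT c m0 m1 m3
      + u0 * u2 * u3 * TT c m0 m2 m3 + u1 * u2 * u3 * TT c m1 m2 m3 := by
  simp only [TT, TD, TF, Finset.mul_sum, ← Finset.sum_add_distrib]
  exact Finset.sum_congr rfl fun p _ => by ring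

/-- The normalised coefficients with respect to four vectors. -/
def cfOf (x a1 a2 y : Fin 4 → R) : Cf R where
  p1 := TD c a1 x
  p2 := TD c a2 x
  p12 := TT c x a1 a2
  c := TD c y x
  n := TF c y
  l1 := TT c x a1 y
  l2 := TT c x a2 y
  f1 := TF c a1
  e1 := TD c a1 a2
  e2 := TD c a2 a1
  f2 := TF c a2
  r1 := TD c a1 y
  r2 := TD c a2 y
  r12 := TT c a1 a2 y
  s1 := TD c y a1
  s2 := TD c y a2

theorem TF_eq_G (x a1 a2 y : Fin 4 → R) (hx : TF c x = 0) (h1 : TD c x a1 = 0)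
    (h2 : TD c x a2 = 0) (hy : TD c x y = 1) (u : Fin 4 → R) :
    TF c (fun i => u 0 * x i + u 1 * a1 i + u 2 * a2 i + u 3 * y i)
      = G (cfOf c x a1 a2 y) u := by
  rw [TF_comb4, hx, h1, h2, hy]
  simp only [G, cfOf]
  ring

theorem cfOf_map (φ : R →+* S) (x a1 a2 y : Fin 4 → R) :
    cfOf (fun p => φ (c p)) (fun i => φ (x i)) (fun i => φ (a1 i)) (fun i => φ (a2 i))
      (fun i => φ (y i)) = (cfOf c x a1 a2 y).map φ := by
  simp only [cfOf, TF_map, TD_map, TT_map, Cf.map]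

end Pool.Agent.W510.Cub
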